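import Pool.Agent.H7.LG.Smo
import Pool.Agent.H7.LG.Sdc
import Pool.Agent.H67.GT.MERT

/-!
# Parameters of the Rankin sieve for `c * log x` survivors
-/

set_option autoImplicit false

namespace Pool.Agent.H7.LX

open Pool.Agent.H7.LG Pool.Agent.H67.GT Filter

theorem par_ev (B : ℝ) : ∃ y0 : ℝ, ∀ y : ℝ, y0 ≤ y →
    B ≤ Real.log y ∧ B ≤ Real.log (Real.log y) ∧ B ≤ Real.log (Real.log (Real.log y)) ∧
    Real.log (Real.log y) ^ 2 ≤ Real.log y ∧ 32 * Real.log (Real.log y) ≤ Real.log y ∧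
    4 * Real.log y ^ 2 ≤ y ∧ 0 < y := by
  have t1 : Tendsto (fun y : ℝ => Real.log y) atTop atTop := Real.tendsto_log_atTop
  have t2 : Tendsto (fun y : ℝ => Real.log (Real.log y)) atTop atTop := Real.tendsto_log_atTop.comp t1
  have t3 : Tendsto (fun y : ℝ => Real.log (Real.log (Real.log y))) atTop atTop :=
    Real.tendsto_log_atTop.comp t2
  have e0 : ∀ᶠ y : ℝ in atTop, 4 * Real.log y ^ 2 ≤ y := by
    have h := (isLittleO_log_rpow_atTop (r := 1 / 2) (by norm_num)).bound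
      (show (0 : ℝ) < 1 / 2 by norm_num)
    filter_upwards [h, eventually_ge_atTop (1 : ℝ)] with y h1 hy
    have h2 : 0 ≤ Real.log y := Real.log_nonneg hy
    rw [Real.norm_of_nonneg h2, Real.norm_of_nonneg (by positivity)] at h1
    have h3 : (y ^ (1 / 2 : ℝ)) ^ 2 = y := by
      rw [← Real.rpow_natCast, ← Real.rpow_mul (by linarith)]
      norm_num
    nlinarith [Real.rpow_nonneg (show (0:ℝ) ≤ y by linarith) (1 / 2 : ℝ)]
  have e1 : ∀ᶠ y : ℝ in atTop, 4 * Real.log (Real.log y) ^ 2 ≤ Real.log y := t1.eventually e0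
  have e2 := t1.eventually_ge_atTop B
  have e3 := t2.eventually_ge_atTop B
  have e4 := t3.eventually_ge_atTop B
  have e5 := t2.eventually_ge_atTop 8
  have h := e0.and (e1.and (e2.and (e3.and (e4.and (e5.and (eventually_gt_atTop (0 : ℝ)))))))
  obtain ⟨y0, hy0⟩ := eventually_atTop.1 h
  refine ⟨y0, fun y hy => ?_⟩
  obtain ⟨a0, a1, a2, a3, a4, a5, a6⟩ := hy0 y hy
  refine ⟨a2, a3, a4, by nlinarith [sq_nonneg (Real.log (Real.log y))], by nlinarith, a0, a6⟩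

theorem par_om {L1 L2 L3 : ℝ} (h3 : 400 ≤ L3) (h32 : L3 ≤ L2) (h5 : 32 * L2 ≤ L1) :
    L1 * L3 / (4 * L2) ≤ L1 / 4 ∧ 8 * L3 ≤ L1 * L3 / (4 * L2) := by
  have hL2 : 0 < L2 := by linarith
  have hL1 : 0 < L1 := by linarith
  constructor
  · rw [div_le_div_iff₀ (by positivity) (by norm_num)]
    have := mul_le_mul_of_nonneg_left h32 hL1.le
    linarith
  · rw [le_div_iff₀ (by positivity)]
    have := mul_le_mul_of_nonneg_left h5 (show 0 ≤ L3 by linarith)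
    linarith

theorem par_w {ω L1 y : ℝ} (h1 : 400 ≤ ω) (hω : ω ≤ L1 / 4) (hy : Real.exp L1 = y) :
    2 ≤ ⌊Real.exp ω⌋₊ ∧ Real.log (⌊Real.exp ω⌋₊ : ℝ) ≤ ω ∧ ω / 2 ≤ Real.log (⌊Real.exp ω⌋₊ : ℝ) ∧
    400 * (⌊Real.exp ω⌋₊ : ℝ) ≤ y := by
  have hwle : (⌊Real.exp ω⌋₊ : ℝ) ≤ Real.exp ω := Nat.floor_le (Real.exp_pos _).le
  have hwlt : Real.exp ω < ⌊Real.exp ω⌋₊ + 1 := Nat.lt_floor_add_one _
  have hexpω : 8 ≤ Real.exp ω := by
    have := Real.add_one_le_exp ω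
    linarith
  have hw2 : Real.exp ω / 2 ≤ (⌊Real.exp ω⌋₊ : ℝ) := by linarith
  have hw4 : (4 : ℝ) ≤ (⌊Real.exp ω⌋₊ : ℝ) := by linarith
  have hwpos : (0 : ℝ) < (⌊Real.exp ω⌋₊ : ℝ) := by linarith
  refine ⟨?_, ?_, ?_, ?_⟩
  · have : (2 : ℝ) ≤ (⌊Real.exp ω⌋₊ : ℝ) := by linarith
    exact_mod_cast this
  · have h := Real.log_le_log hwpos hwle
    rwa [Real.log_exp] at h
  · have h := Real.log_le_log (by positivity) hw2
    rw [Real.log_div (Real.exp_pos _).ne' (by norm_num), Real.log_exp] at h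
    have := Real.log_two_lt_d9
    linarith
  · have e : Real.exp L1 = Real.exp (L1 / 4) * (Real.exp (3 * L1 / 8) * Real.exp (3 * L1 / 8)) := by
      rw [← Real.exp_add, ← Real.exp_add]; congr 1; ring
    have h9 := Real.add_one_le_exp (3 * L1 / 8)
    have h9' : 400 ≤ Real.exp (3 * L1 / 8) := by linarith
    have h10 : 400 * 1 ≤ Real.exp (3 * L1 / 8) * Real.exp (3 * L1 / 8) :=
      mul_le_mul h9' (by linarith) (by norm_num) (by positivity)
    have h11 : Real.exp ω ≤ Real.exp (L1 / 4) := Real.exp_le_exp.2 hω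
    calc 400 * (⌊Real.exp ω⌋₊ : ℝ) ≤ Real.exp (L1 / 4) * (400 * 1) := by linarith
      _ ≤ Real.exp (L1 / 4) * (Real.exp (3 * L1 / 8) * Real.exp (3 * L1 / 8)) :=
          mul_le_mul_of_nonneg_left h10 (Real.exp_pos _).le
      _ = y := by rw [← e, hy]

theorem par_f {c y L1 L2 L3 : ℝ} (hc0 : 0 < c) (hc1 : c ≤ 1 / 2) (hy : 0 < y) (b2 : 1 / c ≤ L1)
    (h3 : 400 ≤ L3) (h32 : L3 ≤ L2) (h4 : L2 ^ 2 ≤ L1) :
    y ≤ c * y * L1 ^ 2 * L3 / L2 ^ 2 ∧ 2 * (c * y * L1 ^ 2 * L3 / L2 ^ 2) ≤ y * L1 ^ 2 := by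
  have hL2 : 0 < L2 := by linarith
  have hL3 : 0 < L3 := by linarith
  have hL1 : 0 < L1 := lt_of_lt_of_le (by positivity) h4
  constructor
  · rw [le_div_iff₀ (by positivity)]
    have h8 : 1 ≤ c * L1 := by
      rw [div_le_iff₀ hc0] at b2
      linarith
    have h9 : L2 ^ 2 ≤ L1 * L3 := by
      calc L2 ^ 2 ≤ L1 * 1 := by linarith
        _ ≤ L1 * L3 := mul_le_mul_of_nonneg_left (by linarith) hL1.le
    calc y * L2 ^ 2 ≤ y * (L1 * L3) := mul_le_mul_of_nonneg_left h9 hy.le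
      _ = 1 * (y * (L1 * L3)) := by ring
      _ ≤ (c * L1) * (y * (L1 * L3)) := mul_le_mul_of_nonneg_right h8 (by positivity)
      _ = _ := by ring
  · have h9 : L3 / L2 ^ 2 ≤ 1 := by
      rw [div_le_one (by positivity)]
      calc L3 ≤ L2 * 1 := by linarith
        _ ≤ L2 * L2 := mul_le_mul_of_nonneg_left (by linarith) hL2.le
        _ = L2 ^ 2 := by ring
    calc 2 * (c * y * L1 ^ 2 * L3 / L2 ^ 2) = (2 * c) * (y * L1 ^ 2) * (L3 / L2 ^ 2) := by ring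
      _ ≤ 1 * (y * L1 ^ 2) * 1 := by
          apply mul_le_mul _ h9 (by positivity) (by positivity)
          apply mul_le_mul_of_nonneg_right _ (by positivity)
          linarith
      _ = _ := by ring

theorem par_k {C L1 L2 L3 lw lK : ℝ} (b1 : C ≤ L3) (h3 : 400 ≤ L3) (h32 : L3 ≤ L2)
    (eL3 : Real.exp L3 = L2) (eL2 : Real.exp L2 = L1)
    (hlw : 0 < lw) (hlw1 : lw ≤ L1 * L3 / (4 * L2)) (hlw2 : lw ≤ L1) (hlK : L1 ≤ lK) :
    1 ≤ L3 - Real.log L3 ∧ L3 - Real.log L3 ≤ L3 ∧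
    Real.exp (C * Real.exp (L3 - Real.log L3) - (L3 - Real.log L3) * lK / lw) * lw ≤ 1 := by
  have hL3p : 0 < L3 := by linarith
  have hL2p : 0 < L2 := by linarith
  have hL1p : 0 < L1 := by linarith
  have hlogL3 : Real.log L3 ≤ L3 / 2 := by
    have h9 : Real.log L3 = 2 * Real.log (Real.sqrt L3) := by
      rw [Real.log_sqrt hL3p.le]; ring
    have h10 := Real.log_le_sub_one_of_pos (Real.sqrt_pos.2 hL3p)
    have h11 := Real.sq_sqrt hL3p.le
    nlinarith [sq_nonneg (Real.sqrt L3 - 2)]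
  have hlogL3' : 0 ≤ Real.log L3 := Real.log_nonneg (by linarith)
  refine ⟨by linarith, by linarith, ?_⟩
  set κ : ℝ := L3 - Real.log L3 with hκ
  have hκ1 : L3 / 2 ≤ κ := by linarith
  have hexpκ : Real.exp κ = L2 / L3 := by
    rw [hκ, Real.exp_sub, eL3, Real.exp_log hL3p]
  have h8 : C * Real.exp κ ≤ L2 := by
    rw [hexpκ]
    calc C * (L2 / L3) ≤ L3 * (L2 / L3) := mul_le_mul_of_nonneg_right b1 (by positivity)
      _ = L2 := by field_simp
  have h9 : 2 * L2 ≤ κ * lK / lw := by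
    rw [le_div_iff₀ hlw]
    calc 2 * L2 * lw ≤ 2 * L2 * (L1 * L3 / (4 * L2)) := mul_le_mul_of_nonneg_left hlw1 (by positivity)
      _ = L3 / 2 * L1 := by field_simp; ring
      _ ≤ κ * lK := mul_le_mul hκ1 hlK hL1p.le (by linarith)
  calc Real.exp (C * Real.exp κ - κ * lK / lw) * lw
      ≤ Real.exp (C * Real.exp κ - κ * lK / lw) * Real.exp L2 := by
        apply mul_le_mul_of_nonneg_left _ (Real.exp_pos _).le
        rw [eL2]; exact hlw2
    _ = Real.exp (C * Real.exp κ - κ * lK / lw + L2) := by rw [Real.exp_add]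
    _ ≤ Real.exp 0 := Real.exp_le_exp.2 (by linarith)
    _ = 1 := Real.exp_zero

theorem par_z {L1 L2 y K z : ℝ} (hy : 0 < y) (hL1y : L1 = Real.log y) (hL2 : L2 = Real.log L1) (h1 : 400 ≤ L1)
    (h2 : 400 ≤ L2) (hz : y / 400 ≤ z) (hK : 0 < K) (hKy : K ≤ y * L1 ^ 2) :
    L1 / 2 ≤ Real.log z ∧ Real.log (K / z) ≤ 3 * L2 := by
  have h10 : Real.log 400 ≤ 10 := by
    have e : (400 : ℝ) ≤ 2 ^ 9 := by norm_num
    have h11 := Real.log_le_log (by norm_num) e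
    rw [Real.log_pow] at h11
    have := Real.log_two_lt_d9
    push_cast at h11
    linarith
  have hzpos : 0 < z := lt_of_lt_of_le (by positivity) hz
  constructor
  · have h8 := Real.log_le_log (by positivity) hz
    rw [Real.log_div hy.ne' (by norm_num), ← hL1y] at h8
    linarith
  · have h8 : K / z ≤ 400 * L1 ^ 2 := by
      rw [div_le_iff₀ hzpos]
      calc K ≤ y * L1 ^ 2 := hKy
        _ = 400 * L1 ^ 2 * (y / 400) := by ring
        _ ≤ 400 * L1 ^ 2 * z := mul_le_mul_of_nonneg_left hz (by positivity)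
    have h9 := Real.log_le_log (by positivity) h8
    rw [Real.log_mul (by norm_num) (by positivity), Real.log_pow, ← hL2] at h9
    push_cast at h9
    linarith

theorem par (c' : ℝ) (hc' : 0 < c') : ∃ c : ℝ, 0 < c ∧ ∃ y0 : ℝ, ∀ y : ℝ, y0 ≤ y →
    ∃ w z K : ℕ, 2 ≤ w ∧ w ≤ z ∧ 200 * (z : ℝ) ≤ y ∧
      c * y * Real.log y ^ 2 * Real.log (Real.log (Real.log y)) / Real.log (Real.log y) ^ 2 ≤ (K : ℝ) ∧
      4 * (K : ℝ) ≤ y ^ 2 ∧ ((sv K w z).card : ℝ) * V Set.univ w ≤ c' * (y / 2) := by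
  obtain ⟨C, hC, hsmo⟩ := smo
  obtain ⟨M, hM, -, -, -, -, hM5⟩ := MERT.mert
  obtain ⟨c, hc0, hc1, hc2⟩ : ∃ c : ℝ, 0 < c ∧ c ≤ 1 / 2 ∧ c * (832 * M) ≤ c' := by
    refine ⟨min (1 / 2) (c' / (832 * M)), by positivity, min_le_left _ _, ?_⟩
    have h := min_le_right (1 / 2 : ℝ) (c' / (832 * M))
    rwa [le_div_iff₀ (by positivity)] at h
  obtain ⟨y0, hy0⟩ := par_ev (max (max C (1 / c)) (2 * C + 400))
  refine ⟨c, hc0, y0, fun y hy => ?_⟩
  obtain ⟨h1, h2, h3, h4, h5, h6, hy⟩ := hy0 y hy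
  obtain ⟨L1, hL1⟩ : ∃ L1 : ℝ, L1 = Real.log y := ⟨_, rfl⟩
  rw [← hL1] at h1 h2 h3 h4 h5 h6 ⊢
  obtain ⟨L2, hL2⟩ : ∃ L2 : ℝ, L2 = Real.log L1 := ⟨_, rfl⟩
  rw [← hL2] at h2 h3 h4 h5 ⊢
  obtain ⟨L3, hL3⟩ : ∃ L3 : ℝ, L3 = Real.log L2 := ⟨_, rfl⟩
  rw [← hL3] at h3 ⊢
  have b1 : C ≤ L3 := le_trans (le_trans (le_max_left _ _) (le_max_left _ _)) h3
  have b2 : 1 / c ≤ L1 := le_trans (le_trans (le_max_right _ _) (le_max_left _ _)) h1
  have b3 : 2 * C + 400 ≤ L2 := le_trans (le_max_right _ _) h2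
  have b4 : 2 * C + 400 ≤ L3 := le_trans (le_max_right _ _) h3
  have b5 : 2 * C + 400 ≤ L1 := le_trans (le_max_right _ _) h1
  clear h1 h2 h3 hy0
  have hL3p : 0 < L3 := by linarith
  have hL2p : 0 < L2 := by linarith
  have hL1p : 0 < L1 := by linarith
  have eL1 : Real.exp L1 = y := by rw [hL1, Real.exp_log hy]
  have eL2 : Real.exp L2 = L1 := by rw [hL2, Real.exp_log hL1p]
  have eL3 : Real.exp L3 = L2 := by rw [hL3, Real.exp_log hL2p]
  have hL32 : L3 ≤ L2 := by linarith [Real.add_one_le_exp L3]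
  obtain ⟨hω1, hω2⟩ := par_om (by linarith) hL32 h5
  obtain ⟨hw2, hlw1, hlw2, hwy⟩ := par_w (ω := L1 * L3 / (4 * L2)) (L1 := L1) (y := y) (by linarith) hω1 eL1
  obtain ⟨hfy, hf2⟩ := par_f (c := c) hc0 hc1 hy b2 (by linarith) hL32 h4
  obtain ⟨ω, hω⟩ : ∃ ω : ℝ, ω = L1 * L3 / (4 * L2) := ⟨_, rfl⟩
  rw [← hω] at hω1 hω2 hw2 hlw1 hlw2 hwy
  obtain ⟨w, hw⟩ : ∃ w : ℕ, w = ⌊Real.exp ω⌋₊ := ⟨_, rfl⟩
  rw [← hw] at hw2 hlw1 hlw2 hwy
  obtain ⟨f, hf⟩ : ∃ f : ℝ, f = c * y * L1 ^ 2 * L3 / L2 ^ 2 := ⟨_, rfl⟩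
  rw [← hf] at hfy hf2 ⊢
  have hlwp : 0 < Real.log w := by linarith
  have hf0 : 0 < f := by linarith
  -- `z`
  have hyL : 400 * L1 ≤ y := by
    have := mul_le_mul_of_nonneg_right (show (100 : ℝ) ≤ L1 by linarith) hL1p.le
    linarith
  obtain ⟨z, hzle, hzlt⟩ : ∃ z : ℕ, (z : ℝ) ≤ y / 200 ∧ y / 200 < z + 1 :=
    ⟨⌊y / 200⌋₊, Nat.floor_le (by positivity), Nat.lt_floor_add_one _⟩
  have hz400 : y / 400 ≤ z := by linarith
  have hwz : w ≤ z := by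
    have h8 : (w : ℝ) ≤ z := by linarith
    exact_mod_cast h8
  have hzpos : (0 : ℝ) < z := by linarith
  -- `K`
  obtain ⟨K, hfK, hKf⟩ : ∃ K : ℕ, f ≤ K ∧ (K : ℝ) < f + 1 := ⟨⌈f⌉₊, Nat.le_ceil _, Nat.ceil_lt_add_one hf0.le⟩
  have hKlt : (K : ℝ) ≤ 2 * f := by linarith
  have hKy : (K : ℝ) ≤ y * L1 ^ 2 := hKlt.trans hf2
  have hyK : y ≤ K := hfy.trans hfK
  have hzK : z ≤ K := by
    have : (z : ℝ) ≤ K := by linarith
    exact_mod_cast this
  have hKpos : (0 : ℝ) < K := by linarith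
  have hlK : L1 ≤ Real.log K := by
    rw [hL1]
    exact Real.log_le_log hy hyK
  refine ⟨w, z, K, hw2, hwz, by linarith, hfK, ?_, ?_⟩
  · calc 4 * (K : ℝ) ≤ 4 * (y * L1 ^ 2) := by linarith
      _ = y * (4 * L1 ^ 2) := by ring
      _ ≤ y * y := mul_le_mul_of_nonneg_left h6 hy.le
      _ = y ^ 2 := by ring
  -- smooth numbers
  obtain ⟨hκ1, hκ2, hE⟩ := par_k (lw := Real.log w) (lK := Real.log K) b1 (by linarith) hL32 eL3 eL2 hlwp
    (by rw [← hω]; exact hlw1) (by linarith) hlK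
  have hsm := hsmo K w (L3 - Real.log L3) (by omega) hw2 hκ1 (by linarith)
  have hsm2 : ((sm K w).card : ℝ) * Real.log K ≤ 2 * C * K := by
    refine hsm.trans ?_
    have hCK : 0 ≤ C * (K : ℝ) := by positivity
    have := mul_le_mul_of_nonneg_left hE hCK
    linarith
  -- the sieved set
  have hsd := sdc K w z (by omega) hzK
  obtain ⟨hlz1, hlKz⟩ := par_z (K := K) hy hL1 hL2 (by linarith) (by linarith) hz400 hKpos hKy
  have hlzK : Real.log z ≤ Real.log K := Real.log_le_log hzpos (by exact_mod_cast hzK)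
  have hcs : (0 : ℝ) ≤ (sv K w z).card := Nat.cast_nonneg _
  have hsv : ((sv K w z).card : ℝ) * (L1 / 2) ≤ 13 * K * L2 := by
    have e1 := mul_le_mul_of_nonneg_left hlz1 hcs
    have e2 := mul_le_mul_of_nonneg_left hlzK (Nat.cast_nonneg (sm K w).card : (0 : ℝ) ≤ _)
    have e3 := mul_le_mul_of_nonneg_left hlKz (show (0 : ℝ) ≤ 4 * K by positivity)
    have e4 := mul_le_mul_of_nonneg_left (show 2 * C + 4 ≤ L2 by linarith) hKpos.le
    linarith
  have hVp := MERT.V_pos Set.univ w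
  have hV : V Set.univ w * (ω / 2) ≤ M :=
    (mul_le_mul_of_nonneg_left hlw2 hVp.le).trans (hM5 w hw2)
  have hωp : 0 < ω := by linarith
  have hprod : (((sv K w z).card : ℝ) * (L1 / 2)) * (V Set.univ w * (ω / 2)) ≤ (13 * K * L2) * M :=
    mul_le_mul hsv hV (by positivity) (by positivity)
  have hfin : ((sv K w z).card : ℝ) * V Set.univ w * (L1 * ω) ≤ c' * (y / 2) * (L1 * ω) := by
    have e1 : (13 * (K : ℝ) * L2) * M ≤ (13 * (2 * f) * L2) * M := by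
      apply mul_le_mul_of_nonneg_right _ (by linarith)
      apply mul_le_mul_of_nonneg_right _ hL2p.le
      linarith
    have e2 : 4 * ((13 * (2 * f) * L2) * M) = (c * (832 * M)) * (y / 2) * (L1 * ω) := by
      rw [hf, hω]
      field_simp
      ring
    have e3 : (c * (832 * M)) * (y / 2) * (L1 * ω) ≤ c' * (y / 2) * (L1 * ω) := by
      apply mul_le_mul_of_nonneg_right _ (by positivity)
      exact mul_le_mul_of_nonneg_right hc2 (by linarith)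
    linarith
  exact le_of_mul_le_mul_right hfin (by positivity)

end Pool.Agent.H7.LX
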