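import Pool.Agent.H7.LX.ParF
import Pool.Agent.H7.LX.Par

/-!
# Parameters for the frequency theorem: the range up to `L log h loglog h`
-/

set_option autoImplicit false

namespace Pool.Agent.H7.LX

open Pool.Agent.H7.LG Pool.Agent.H67.GT Filter

/-- large parameters -/
theorem parG_ev (B : ℝ) : ∃ H0 : ℝ, ∀ H : ℝ, H0 ≤ H →
    36 ≤ H ∧ 100 ≤ Real.log H ∧ 4 * Real.log H ^ 2 ≤ H ∧ 1 ≤ Real.log (Real.log H) ∧
    B * (Real.sqrt (Real.log H) * Real.log (Real.log H) ^ 2) ≤ Real.log H := by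
  have h1 : ∀ᶠ y : ℝ in atTop, max B 0 * (Real.sqrt y * Real.log y ^ 2) ≤ y := by
    obtain ⟨k, hk⟩ : ∃ k : ℝ, k = 1 / Real.sqrt (max B 0 + 1) := ⟨_, rfl⟩
    have hk0 : 0 < k := by rw [hk]; positivity
    have h := (isLittleO_log_rpow_atTop (r := 1 / 4) (by norm_num)).bound hk0
    filter_upwards [h, eventually_ge_atTop (1 : ℝ)] with y h1 hy
    have h2 : 0 ≤ Real.log y := Real.log_nonneg hy
    rw [Real.norm_of_nonneg h2, Real.norm_of_nonneg (by positivity)] at h1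
    have h3 : Real.log y ^ 2 ≤ (k * y ^ (1 / 4 : ℝ)) ^ 2 := pow_le_pow_left₀ h2 h1 2
    have h4 : (k * y ^ (1 / 4 : ℝ)) ^ 2 = k ^ 2 * Real.sqrt y := by
      rw [mul_pow, ← Real.rpow_natCast (y ^ (1 / 4 : ℝ)), ← Real.rpow_mul (by linarith), Real.sqrt_eq_rpow]
      norm_num
    have h5 : k ^ 2 = 1 / (max B 0 + 1) := by
      rw [hk, div_pow, one_pow, Real.sq_sqrt (by positivity)]
    have h6 := Real.mul_self_sqrt (show 0 ≤ y by linarith)
    have h7 : 0 ≤ max B 0 := le_max_right _ _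
    calc max B 0 * (Real.sqrt y * Real.log y ^ 2) ≤ max B 0 * (Real.sqrt y * (k ^ 2 * Real.sqrt y)) := by
          rw [← h4]; gcongr
      _ = (max B 0 / (max B 0 + 1)) * (Real.sqrt y * Real.sqrt y) := by rw [h5]; ring
      _ ≤ 1 * (Real.sqrt y * Real.sqrt y) := by
          apply mul_le_mul_of_nonneg_right _ (by positivity)
          rw [div_le_one (by positivity)]
          linarith
      _ = y := by rw [one_mul, h6]
  obtain ⟨y0, hy0⟩ := par_ev 100
  obtain ⟨y1, hy1⟩ := eventually_atTop.1 ((Real.tendsto_log_atTop.eventually h1).and (eventually_ge_atTop (36 : ℝ)))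
  refine ⟨max y0 y1, fun H hH => ?_⟩
  obtain ⟨a1, a2, a3, a4, a5, a6, a7⟩ := hy0 H ((le_max_left _ _).trans hH)
  obtain ⟨b1, b2⟩ := hy1 H ((le_max_right _ _).trans hH)
  refine ⟨b2, a1, a6, by linarith, ?_⟩
  refine le_trans ?_ b1
  apply mul_le_mul_of_nonneg_right (le_max_left _ _) (by positivity)

theorem parG_delta {c1 c Λ L ell lam : ℝ} (hc1 : 0 < c1) (hcc : 8 * c ≤ c1) (hΛ : 100 ≤ Λ)
    (hlΛ : 1 ≤ Real.log Λ) (hev : 4 / c1 * (Real.sqrt Λ * Real.log Λ ^ 2) ≤ Λ) (hL : 1 ≤ L) (hl1 : 2.75 ≤ ell)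
    (hl2 : 1 ≤ lam) (hell : ell = Real.log (16 + L))
    (hyp : L * ell ^ 2 ≤ c * Λ * lam) : 4 * Real.log Λ ≤ c1 * lam / (L * ell) * Λ := by
  have hLe : 0 < L * ell := by positivity
  have hΛ0 : 0 < Λ := by linarith
  have key : 4 * Real.log Λ * (L * ell) ≤ c1 * lam * Λ := by
    rcases le_total (Real.sqrt Λ) L with h | h
    · have h1 : Real.log Λ ≤ 2 * ell := by
        have h2 : Real.log (Real.sqrt Λ) ≤ ell := by
          rw [hell]
          apply Real.log_le_log (Real.sqrt_pos.2 hΛ0)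
          linarith
        rw [Real.log_sqrt hΛ0.le] at h2
        linarith
      calc 4 * Real.log Λ * (L * ell) ≤ 4 * (2 * ell) * (L * ell) := by gcongr
        _ = 8 * (L * ell ^ 2) := by ring
        _ ≤ 8 * (c * Λ * lam) := by linarith
        _ = (8 * c) * (lam * Λ) := by ring
        _ ≤ c1 * (lam * Λ) := by gcongr
        _ = _ := by ring
    · have h1 : ell ≤ Real.log Λ := by
        rw [hell]
        apply Real.log_le_log (by linarith)
        have h2 := Real.mul_self_sqrt hΛ0.le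
        have h3 : 10 ≤ Real.sqrt Λ := by
          apply Real.le_sqrt_of_sq_le
          linarith
        nlinarith
      have h2 : Real.sqrt Λ * Real.log Λ ^ 2 ≤ c1 / 4 * Λ := by
        have h3 := mul_le_mul_of_nonneg_left hev (show 0 ≤ c1 / 4 by positivity)
        have h4 : c1 / 4 * (4 / c1 * (Real.sqrt Λ * Real.log Λ ^ 2)) = Real.sqrt Λ * Real.log Λ ^ 2 := by
          field_simp
        linarith
      calc 4 * Real.log Λ * (L * ell) ≤ 4 * Real.log Λ * (Real.sqrt Λ * Real.log Λ) := by gcongr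
        _ = 4 * (Real.sqrt Λ * Real.log Λ ^ 2) := by ring
        _ ≤ 4 * (c1 / 4 * Λ) := by linarith
        _ = c1 * 1 * Λ := by ring
        _ ≤ c1 * lam * Λ := by gcongr
  rw [div_mul_eq_mul_div, le_div_iff₀ hLe]
  exact key

theorem parG (c' : ℝ) (hc' : 0 < c') : ∃ c : ℝ, 0 < c ∧ c ≤ 1 ∧ ∃ H0 : ℝ, ∀ H L : ℝ, H0 ≤ H → 1 ≤ L →
    L * l1 L ^ 2 ≤ c * Real.log H * l2 L →
    ∃ w z : ℕ, 2 ≤ w ∧ w ≤ z ∧ 200 * (z : ℝ) ≤ H ∧ 4 * (⌊L * (H * Real.log H)⌋₊ : ℝ) ≤ H ^ 2 ∧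
      ((sv ⌊L * (H * Real.log H)⌋₊ w z).card : ℝ) * V Set.univ w ≤ c' * (H / 2) ∧
      3 + 2 * (z : ℝ) ≤ H ^ (1 - c * l2 L / (L * l1 L)) ∧
      4 * Real.log (Real.log H) ≤ 1000 * c * l2 L / (L * l1 L) * Real.log H := by
  obtain ⟨M, hM, -, -, -, -, hM5⟩ := MERT.mert
  have hM0 : 0 < M := by linarith
  obtain ⟨c1, hc1, hpar⟩ := parF (c' / (8 * M)) (by positivity)
  obtain ⟨c, hc0, hc1', hc8, hc1000⟩ : ∃ c : ℝ, 0 < c ∧ c ≤ 1 ∧ 8 * c ≤ c1 ∧ 1000 * c = min c1 1 := by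
    refine ⟨min c1 1 / 1000, by positivity, ?_, ?_, by ring⟩
    · have := min_le_right c1 1
      linarith
    · have := min_le_left c1 1
      linarith
  have hmin : 1000 * c ≤ c1 := by rw [hc1000]; exact min_le_left _ _
  obtain ⟨H0, hH0⟩ := parG_ev (4 / (1000 * c))
  refine ⟨c, hc0, hc1', H0, fun H L hH hL hyp => ?_⟩
  obtain ⟨g1, g2, g3, g4, g5⟩ := hH0 H hH
  obtain ⟨Λ, hΛ⟩ : ∃ Λ : ℝ, Λ = Real.log H := ⟨_, rfl⟩
  rw [← hΛ] at g2 g3 g4 g5 hyp ⊢
  have hH0' : 0 < H := by linarith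
  have hΛ0 : 0 < Λ := by linarith
  have hl1 : 2.75 ≤ l1 L := l1_ge hL
  have hl2 : 1 ≤ l2 L := l2_ge hL
  have hl21 : l2 L ≤ l1 L := l2_le hL
  have hlogH' : Real.log (H * Λ) = Λ + Real.log Λ := by
    rw [Real.log_mul hH0'.ne' hΛ0.ne', ← hΛ]
  have hHΛ : H ≤ H * Λ := le_mul_of_one_le_right hH0'.le (by linarith)
  obtain ⟨w, z, hw2, hwz, hcard, hlK, hz⟩ := hpar (H * Λ) L (g1.trans hHΛ) hL (by
    rw [hlogH']
    refine hyp.trans ?_
    apply mul_le_mul_of_nonneg_right _ (by linarith)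
    apply mul_le_mul (by linarith) (by linarith) hΛ0.le hc1.le)
  have hyp2 : (1000 * c) * l2 L / (L * l1 L) * Λ ≤ c1 * l2 L / (L * l1 L) * Λ := by
    apply mul_le_mul_of_nonneg_right _ hΛ0.le
    apply div_le_div_of_nonneg_right _ (by positivity)
    apply mul_le_mul_of_nonneg_right hmin (by linarith)
  have hdel := parG_delta (c1 := 1000 * c) (c := c) (Λ := Λ) (L := L) (ell := l1 L) (lam := l2 L) (by positivity)
    (by linarith) g2 g4 g5 hL hl1 hl2 rfl hyp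
  obtain ⟨dd, hdd⟩ : ∃ dd : ℝ, dd = c * l2 L / (L * l1 L) := ⟨_, rfl⟩
  have hdd1000 : (1000 * c) * l2 L / (L * l1 L) = 1000 * dd := by rw [hdd]; ring
  rw [hdd1000] at hdel hyp2
  rw [hdd1000, ← hdd]
  obtain ⟨d1, hd1⟩ : ∃ d1 : ℝ, d1 = c1 * l2 L / (L * l1 L) := ⟨_, rfl⟩
  rw [← hd1] at hyp2 hz
  have hd1pos : 0 < d1 := by rw [hd1]; positivity
  have hd11 : d1 < 1 := by
    by_contra hcon
    push Not at hcon
    have e1 : (H * Λ) ^ (1 - d1) ≤ 1 := Real.rpow_le_one_of_one_le_of_nonpos (by linarith) (by linarith)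
    have e2 : (0 : ℝ) ≤ z := Nat.cast_nonneg z
    linarith
  have hzexp : 3 + 2 * (z : ℝ) ≤ Real.exp (Λ + Real.log Λ - 1000 * dd * Λ) := by
    refine hz.trans ?_
    rw [Real.rpow_def_of_pos (by positivity), hlogH']
    apply Real.exp_le_exp.2
    have e1 : (Λ + Real.log Λ) * (1 - d1) = Λ + Real.log Λ - d1 * Λ - d1 * Real.log Λ := by ring
    have e2 : 0 ≤ d1 * Real.log Λ := by positivity
    linarith
  have hlogΛ100 : 4 ≤ Real.log Λ := by
    have e1 : Real.log 100 ≤ Real.log Λ := Real.log_le_log (by norm_num) g2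
    have e2 : (2 : ℝ) ^ 6 ≤ 100 := by norm_num
    have e3 := Real.log_le_log (by norm_num) e2
    rw [Real.log_pow] at e3
    have := Real.log_two_gt_d9
    push_cast at e3
    linarith
  have hz200 : 200 * (z : ℝ) ≤ H := by
    have e1 : Real.exp (Λ + Real.log Λ - 1000 * dd * Λ) ≤ Real.exp (Λ - 3 * Real.log Λ) := by
      apply Real.exp_le_exp.2
      linarith
    have e2 : Real.exp (Λ - 3 * Real.log Λ) = H * Real.exp (-(3 * Real.log Λ)) := by
      rw [sub_eq_add_neg, Real.exp_add, hΛ, Real.exp_log hH0']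
    have e3 : Real.exp (-(3 * Real.log Λ)) ≤ 1 / 100 := by
      rw [Real.exp_neg, one_div]
      apply inv_anti₀ (by norm_num)
      have e4 : Real.exp (Real.log Λ) ≤ Real.exp (3 * Real.log Λ) := Real.exp_le_exp.2 (by linarith)
      rw [Real.exp_log hΛ0] at e4
      linarith
    have e5 : H * Real.exp (-(3 * Real.log Λ)) ≤ H * (1 / 100) := mul_le_mul_of_nonneg_left e3 hH0'.le
    linarith
  refine ⟨w, z, hw2, hwz, hz200, ?_, ?_, ?_, hdel⟩
  · have e1 : (⌊L * (H * Λ)⌋₊ : ℝ) ≤ L * (H * Λ) := Nat.floor_le (by positivity)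
    have e2 : L ≤ Λ := by
      have h1 : L * l1 L ^ 2 ≤ 1 * Λ * l1 L := by
        refine hyp.trans ?_
        apply mul_le_mul _ hl21 (by linarith) (by positivity)
        exact mul_le_mul_of_nonneg_right hc1' hΛ0.le
      have h2 : (L * l1 L) * l1 L ≤ Λ * l1 L := by
        have : (L * l1 L) * l1 L = L * l1 L ^ 2 := by ring
        rw [this]; linarith
      have h3 := le_of_mul_le_mul_right h2 (by linarith)
      have h4 : L ≤ L * l1 L := le_mul_of_one_le_right (by linarith) (by linarith)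
      linarith
    have e3 : L * (H * Λ) ≤ Λ * (H * Λ) := mul_le_mul_of_nonneg_right e2 (by positivity)
    have e4 : 4 * (Λ * (H * Λ)) = (4 * Λ ^ 2) * H := by ring
    have e5 : (4 * Λ ^ 2) * H ≤ H * H := mul_le_mul_of_nonneg_right g3 hH0'.le
    have e6 : H ^ 2 = H * H := by ring
    rw [e6]
    linarith
  · have hlogK : Λ ≤ Real.log (⌊L * (H * Λ)⌋₊ : ℝ) := by
      have e1 : L * (H * Λ) < (⌊L * (H * Λ)⌋₊ : ℝ) + 1 := Nat.lt_floor_add_one _
      have e2 : H * Λ ≤ L * (H * Λ) := le_mul_of_one_le_left (by positivity) hL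
      have e3 : H * 2 ≤ H * Λ := mul_le_mul_of_nonneg_left (by linarith) hH0'.le
      have e4 : H ≤ (⌊L * (H * Λ)⌋₊ : ℝ) := by linarith
      rw [hΛ] at e4 ⊢
      exact Real.log_le_log hH0' e4
    have hlz : Λ / 4 ≤ Real.log z := by linarith
    have hwR : (2 : ℝ) ≤ w := by exact_mod_cast hw2
    have hlw : 0 < Real.log w := Real.log_pos (by linarith)
    have hV := hM5 w hw2
    have hVp := MERT.V_pos Set.univ w
    have hcs : (0 : ℝ) ≤ (sv ⌊L * (H * Λ)⌋₊ w z).card := Nat.cast_nonneg _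
    obtain ⟨S, hS⟩ : ∃ S : ℝ, S = ((sv ⌊L * (H * Λ)⌋₊ w z).card : ℝ) := ⟨_, rfl⟩
    rw [← hS] at hcard hcs ⊢
    have e1 : S * (Λ / 4) ≤ c' / (8 * M) * (H * Λ) * Real.log w :=
      (mul_le_mul_of_nonneg_left hlz hcs).trans hcard
    have e2 : (S * V Set.univ w) * (Λ / 4) ≤ (c' * (H / 2)) * (Λ / 4) := by
      calc (S * V Set.univ w) * (Λ / 4) = (S * (Λ / 4)) * V Set.univ w := by ring
        _ ≤ (c' / (8 * M) * (H * Λ) * Real.log w) * V Set.univ w := mul_le_mul_of_nonneg_right e1 hVp.le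
        _ = c' / (8 * M) * (H * Λ) * (V Set.univ w * Real.log w) := by ring
        _ ≤ c' / (8 * M) * (H * Λ) * M := mul_le_mul_of_nonneg_left hV (by positivity)
        _ = (c' * (H / 2)) * (Λ / 4) := by field_simp; ring
    exact le_of_mul_le_mul_right e2 (by positivity)
  · refine hzexp.trans ?_
    rw [Real.rpow_def_of_pos hH0', ← hΛ]
    apply Real.exp_le_exp.2
    have e1 : Λ * (1 - dd) = Λ - dd * Λ := by ring
    rw [e1]
    linarith

end Pool.Agent.H7.LX
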