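import Pool.Agent.H7.LX.Defs
import Pool.Agent.H7.LX.ParG
import Pool.Agent.H7.LG.Rows

/-!
# Frequency of long prime-free intervals from the counting form of the amplitude theorem
-/

set_option autoImplicit false

namespace Pool.Agent.H7.LX

open Pool.Agent.H7.LG Pool.Agent.H67.GT Filter

/-- the amplitude theorem, counting form -/
def AMPC (r : ℝ) (A : ℕ) : Prop := ∃ c : ℝ, 0 < c ∧ ∃ x0 : ℝ, ∀ x : ℝ, x0 ≤ x → ∀ (z c0 T : ℕ) (S : Finset ℕ),
  100 * (z : ℝ) ≤ Real.log x → (c0 : ℝ) ≤ x ^ A → (T : ℝ) ≤ x →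
  (∀ k ∈ S, 1 ≤ k ∧ (k : ℝ) ≤ Real.log x ^ 2 ∧ Nat.Coprime (c0 + k) (primorial z)) →
  (S.card : ℝ) ≤ c * Real.log x → x ^ (7 / 10 : ℝ) ≤ T →
  (T : ℝ) * Real.exp (-(Real.log x) ^ (1 / 2 : ℝ)) ≤
    (Set.ncard {t : ℕ | t < T ∧ ∀ k ∈ S, ∃ p : ℕ, p.Prime ∧ (p : ℝ) ≤ x ^ r ∧
      p ∣ primorial z * t + c0 + k} : ℝ)

/-- sizes -/
theorem freq_size {r : ℝ} (hr : 0 < r) (hr1 : r ≤ 1 / 16) : ∃ x1 : ℝ, ∀ x : ℝ, x1 ≤ x → 32 ≤ x ∧
    ∀ z : ℕ, 200 * (z : ℝ) ≤ Real.log x →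
    (primorial z : ℝ) ≤ x ^ (1 / 16 : ℝ) ∧ (primorial z : ℝ) ≤ Real.exp (2 * z) ∧ (z : ℝ) ≤ x ^ r ∧
    3 * x ^ (1 / 16 : ℝ) + 4 ≤ x / 4 ∧ x ^ (7 / 10 : ℝ) * (8 * primorial z) ≤ x ∧
    x ^ r ≤ x ^ (1 / 16 : ℝ) := by
  have h2 := (tendsto_rpow_atTop (show (0 : ℝ) < 1 / 8 by norm_num)).eventually_ge_atTop 100
  have h3 := (isLittleO_log_rpow_atTop hr).bound (show (0 : ℝ) < 1 by norm_num)
  obtain ⟨x1, hx1⟩ := eventually_atTop.1 ((h2.and (eventually_ge_atTop (32 : ℝ))).and h3)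
  refine ⟨x1, fun x hx => ?_⟩
  obtain ⟨⟨a2, a4⟩, a3⟩ := hx1 x hx
  refine ⟨a4, fun z hz => ?_⟩
  have hx0 : (0 : ℝ) < x := by linarith
  have e2 : Real.log 4 ≤ 2 := by
    have h3 : Real.log 4 = 2 * Real.log 2 := by
      rw [show (4 : ℝ) = 2 ^ 2 by norm_num, Real.log_pow]; push_cast; ring
    have := Real.log_two_lt_d9
    linarith
  have e3 := mul_le_mul_of_nonneg_left e2 (Nat.cast_nonneg z : (0 : ℝ) ≤ z)
  have hP : (4 : ℝ) ^ z ≤ x ^ (1 / 16 : ℝ) := by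
    rw [← Real.log_le_log_iff (by positivity) (by positivity), Real.log_pow, Real.log_rpow hx0]
    linarith
  have hP' : (4 : ℝ) ^ z ≤ Real.exp (2 * z) := by
    rw [← Real.log_le_log_iff (by positivity) (by positivity), Real.log_pow, Real.log_exp]
    linarith
  have hP1 : (primorial z : ℝ) ≤ 4 ^ z := by exact_mod_cast primorial_le_four_pow z
  have hP2 : (z : ℝ) ≤ x ^ r := by
    have hl : 0 ≤ Real.log x := Real.log_nonneg (by linarith)
    rw [Real.norm_of_nonneg hl, Real.norm_of_nonneg (by positivity), one_mul] at a3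
    have hz0 : (0 : ℝ) ≤ z := Nat.cast_nonneg z
    linarith
  have hu1 : 1 ≤ x ^ (1 / 16 : ℝ) := Real.one_le_rpow (by linarith) (by norm_num)
  have hu2 : x ^ (1 / 16 : ℝ) ≤ x ^ (1 / 8 : ℝ) := Real.rpow_le_rpow_of_exponent_le (by linarith) (by norm_num)
  have hu3 : x ^ (1 / 8 : ℝ) * x ^ (1 / 8 : ℝ) ≤ x := by
    rw [← Real.rpow_add hx0]
    calc x ^ (1 / 8 + 1 / 8 : ℝ) ≤ x ^ (1 : ℝ) := Real.rpow_le_rpow_of_exponent_le (by linarith) (by norm_num)
      _ = x := Real.rpow_one x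
  refine ⟨hP1.trans hP, hP1.trans hP', hP2, by nlinarith, ?_,
    Real.rpow_le_rpow_of_exponent_le (by linarith) hr1⟩
  have e4 : x ^ (7 / 10 : ℝ) * (8 * primorial z) ≤ x ^ (7 / 10 : ℝ) * (x ^ (1 / 8 : ℝ) * x ^ (1 / 16 : ℝ)) := by
    have : (0 : ℝ) ≤ x ^ (7 / 10 : ℝ) := by positivity
    apply mul_le_mul_of_nonneg_left _ this
    apply mul_le_mul (by linarith) (hP1.trans hP) (Nat.cast_nonneg _) (by positivity)
  refine e4.trans ?_
  rw [← Real.rpow_add hx0, ← Real.rpow_add hx0]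
  calc x ^ (7 / 10 + (1 / 8 + 1 / 16) : ℝ) ≤ x ^ (1 : ℝ) :=
        Real.rpow_le_rpow_of_exponent_le (by linarith) (by norm_num)
    _ = x := Real.rpow_one x

/-- the starting points of long intervals all of whose elements have a small prime factor -/
noncomputable def good (r h : ℝ) (X K : ℕ) : Finset ℕ := by
  classical exact (Finset.Ioc X (X + ⌊h⌋₊)).filter (fun n : ℕ => ∀ k : ℕ, n < k → k ≤ n + K →
    ¬ k.Prime ∧ ∃ p : ℕ, p.Prime ∧ (p : ℝ) ≤ h ^ r ∧ p ∣ k)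

theorem mem_good {r h : ℝ} {X K n : ℕ} : n ∈ good r h X K ↔ (X < n ∧ n ≤ X + ⌊h⌋₊) ∧
    ∀ k : ℕ, n < k → k ≤ n + K → ¬ k.Prime ∧ ∃ p : ℕ, p.Prime ∧ (p : ℝ) ≤ h ^ r ∧ p ∣ k := by
  classical
  unfold good
  rw [Finset.mem_filter, Finset.mem_Ioc]

/-- counting, for given parameters -/
theorem freq_count {r : ℝ} {A : ℕ} {c' x0 x1 : ℝ} (hA : ∀ x : ℝ, x0 ≤ x → ∀ (z c0 T : ℕ) (S : Finset ℕ),
      100 * (z : ℝ) ≤ Real.log x → (c0 : ℝ) ≤ x ^ (A + 1) → (T : ℝ) ≤ x →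
      (∀ k ∈ S, 1 ≤ k ∧ (k : ℝ) ≤ Real.log x ^ 2 ∧ Nat.Coprime (c0 + k) (primorial z)) →
      (S.card : ℝ) ≤ c' * Real.log x → x ^ (7 / 10 : ℝ) ≤ T →
      (T : ℝ) * Real.exp (-(Real.log x) ^ (1 / 2 : ℝ)) ≤
        (Set.ncard {t : ℕ | t < T ∧ ∀ k ∈ S, ∃ p : ℕ, p.Prime ∧ (p : ℝ) ≤ x ^ r ∧
          p ∣ primorial z * t + c0 + k} : ℝ))
    (hx1 : ∀ x : ℝ, x1 ≤ x → 32 ≤ x ∧ ∀ z : ℕ, 200 * (z : ℝ) ≤ Real.log x →
      (primorial z : ℝ) ≤ x ^ (1 / 16 : ℝ) ∧ (primorial z : ℝ) ≤ Real.exp (2 * z) ∧ (z : ℝ) ≤ x ^ r ∧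
      3 * x ^ (1 / 16 : ℝ) + 4 ≤ x / 4 ∧ x ^ (7 / 10 : ℝ) * (8 * primorial z) ≤ x ∧
      x ^ r ≤ x ^ (1 / 16 : ℝ))
    {h : ℝ} (hh0 : x0 ≤ h) (hh1 : x1 ≤ h) {X : ℕ} (hX : (X : ℝ) ≤ h ^ A) {w z K : ℕ} (hwz : w ≤ z) (hc' : 0 ≤ c')
    (hz : 200 * (z : ℝ) ≤ Real.log h) (hK : 4 * (K : ℝ) ≤ Real.log h ^ 2)
    (hcard : ((sv K w z).card : ℝ) * V Set.univ w ≤ c' * (Real.log h / 2)) :
    h * Real.exp (-(3 + 2 * z + Real.log h ^ (1 / 2 : ℝ))) ≤ ((good r h X K).card : ℝ) := by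
  obtain ⟨hh32, hsz⟩ := hx1 h hh1
  obtain ⟨s1, s2, s3, s4, s5, s6⟩ := hsz z hz
  have hh0' : 0 < h := by linarith
  have hlh : 0 ≤ Real.log h := Real.log_nonneg (by linarith)
  obtain ⟨rr, hrr⟩ := Rows_R K w z hwz
  obtain ⟨a, haQ, ha⟩ := crt rr z
  have hQ1 : 0 < primorial z := primorial_pos z
  have hQ1' : (0 : ℝ) < primorial z := by exact_mod_cast hQ1
  have hQ1'' : (1 : ℝ) ≤ primorial z := by exact_mod_cast hQ1
  obtain ⟨u, hu1, hu2⟩ : ∃ u : ℕ, h ^ r + 1 ≤ u ∧ (u : ℝ) < h ^ r + 1 + 1 :=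
    ⟨⌈h ^ r + 1⌉₊, Nat.le_ceil _, Nat.ceil_lt_add_one (by positivity)⟩
  obtain ⟨m0, hm1, hm2⟩ : ∃ m0 : ℕ, X + u < m0 * primorial z ∧ m0 * primorial z ≤ X + u + primorial z := by
    refine ⟨(X + u) / primorial z + 1, ?_, ?_⟩
    · have h5 := Nat.lt_mul_div_succ (X + u) hQ1
      rw [Nat.mul_comm] at h5
      exact h5
    · have h5 := Nat.div_mul_le_self (X + u) (primorial z)
      rw [Nat.add_mul, Nat.one_mul]
      omega
  obtain ⟨T, hT1, hT2⟩ : ∃ T : ℕ, (T : ℝ) ≤ h / (4 * primorial z) ∧ h / (4 * primorial z) < T + 1 :=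
    ⟨⌊h / (4 * primorial z)⌋₊, Nat.floor_le (by positivity), Nat.lt_floor_add_one _⟩
  have hT8 : h / (8 * primorial z) ≤ T := by
    have e1 : h / (4 * primorial z) = 2 * (h / (8 * primorial z)) := by field_simp; ring
    have e2 : 1 ≤ h / (8 * primorial z) := by
      rw [le_div_iff₀ (by positivity), one_mul]
      refine le_trans ?_ s5
      have e3 : 1 ≤ h ^ (7 / 10 : ℝ) := Real.one_le_rpow (by linarith) (by norm_num)
      exact le_mul_of_one_le_left (by positivity) e3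
    linarith
  have hT7 : h ^ (7 / 10 : ℝ) ≤ T := by
    refine le_trans ?_ hT8
    rw [le_div_iff₀ (by positivity)]
    exact s5
  have hc0A : ((a + m0 * primorial z : ℕ) : ℝ) ≤ h ^ (A + 1) := by
    have e5 : (a : ℝ) ≤ primorial z := by exact_mod_cast haQ.le
    have e6 : ((m0 * primorial z : ℕ) : ℝ) ≤ X + u + primorial z := by exact_mod_cast hm2
    have e7 : 1 ≤ h ^ A := one_le_pow₀ (by linarith)
    have e8 : h ^ (A + 1) = h ^ A * h := pow_succ _ _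
    rw [e8]
    push_cast at e6 ⊢
    nlinarith
  have hTh : (T : ℝ) ≤ h := by
    refine hT1.trans ?_
    rw [div_le_iff₀ (by positivity)]
    nlinarith
  have hcnt := hA h hh0 z (a + m0 * primorial z) T (LG.rem (Finset.Icc 1 K) rr z) (by linarith) hc0A hTh (by
      intro k hk
      rw [mem_rem, Finset.mem_Icc] at hk
      obtain ⟨⟨hk1, hk2⟩, hk3⟩ := hk
      refine ⟨hk1, ?_, ?_⟩
      · have e1 : (k : ℝ) ≤ K := by exact_mod_cast hk2
        nlinarith [sq_nonneg (Real.log h)]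
      · rw [Nat.Coprime, Nat.eq_one_iff_not_exists_prime_dvd]
        intro p hpp hpd
        have e1 := (Nat.dvd_gcd_iff.1 hpd)
        have e2 : p ≤ z := by
          have e3 := e1.2
          rw [primorial, Prime.dvd_finsetProd_iff hpp.prime] at e3
          obtain ⟨q, hq, hpq⟩ := e3
          rw [Finset.mem_filter, Finset.mem_range] at hq
          have := (Nat.prime_dvd_prime_iff_eq hpp hq.2).1 hpq
          omega
        exact hk3 p hpp e2 ((ha p hpp e2 m0 k).1 e1.1)) (by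
      refine (hrr.trans hcard).trans ?_
      apply mul_le_mul_of_nonneg_left _ hc'
      linarith) hT7
  -- the injection
  have hsub : ((fun t : ℕ => primorial z * t + (a + m0 * primorial z)) ''
      {t : ℕ | t < T ∧ ∀ k ∈ LG.rem (Finset.Icc 1 K) rr z, ∃ p : ℕ, p.Prime ∧ (p : ℝ) ≤ h ^ r ∧
      p ∣ primorial z * t + (a + m0 * primorial z) + k}) ⊆ ((good r h X K : Finset ℕ) : Set ℕ) := by
    rintro n ⟨t, ⟨ht, htk⟩, rfl⟩
    rw [Finset.mem_coe, mem_good]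
    refine ⟨⟨?_, ?_⟩, ?_⟩
    · show X < primorial z * t + (a + m0 * primorial z)
      omega
    · have e1 : (t : ℝ) ≤ T := by exact_mod_cast ht.le
      have e2 : (primorial z : ℝ) * t ≤ h / 4 := by
        have e3 : (primorial z : ℝ) * t ≤ primorial z * (h / (4 * primorial z)) :=
          mul_le_mul_of_nonneg_left (e1.trans hT1) hQ1'.le
        have e4 : (primorial z : ℝ) * (h / (4 * primorial z)) = h / 4 := by field_simp
        linarith
      have e5 : (a : ℝ) ≤ primorial z := by exact_mod_cast haQ.le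
      have e6 : ((m0 * primorial z : ℕ) : ℝ) ≤ X + u + primorial z := by exact_mod_cast hm2
      obtain ⟨v, hv⟩ : ∃ v : ℕ, primorial z * t + (a + m0 * primorial z) = X + v :=
        ⟨primorial z * t + (a + m0 * primorial z) - X, by omega⟩
      show primorial z * t + (a + m0 * primorial z) ≤ X + ⌊h⌋₊
      rw [hv]
      have e7 : (v : ℝ) ≤ h := by
        have e8 : ((primorial z * t + (a + m0 * primorial z) : ℕ) : ℝ) = ((X + v : ℕ) : ℝ) := by rw [hv]
        push_cast at e8 e6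
        linarith
      have e9 := Nat.le_floor e7
      omega
    · intro q hnq hqn
      change primorial z * t + (a + m0 * primorial z) < q at hnq
      change q ≤ primorial z * t + (a + m0 * primorial z) + K at hqn
      obtain ⟨j, hj⟩ : ∃ j : ℕ, q = primorial z * t + (a + m0 * primorial z) + j :=
        ⟨q - (primorial z * t + (a + m0 * primorial z)), by omega⟩
      have hj1 : j ∈ Finset.Icc 1 K := Finset.mem_Icc.2 ⟨by omega, by omega⟩
      have hmain : ∃ p : ℕ, p.Prime ∧ (p : ℝ) ≤ h ^ r ∧ p ∣ q := by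
        by_cases hjr : j ∈ LG.rem (Finset.Icc 1 K) rr z
        · obtain ⟨p, hp1, hp2, hp3⟩ := htk j hjr
          exact ⟨p, hp1, hp2, by rw [hj]; exact hp3⟩
        · rw [mem_rem] at hjr
          push Not at hjr
          obtain ⟨p, hp1, hp2, hp3⟩ := hjr hj1
          have e0 := (ha p hp1 hp2 (m0 + t) j).2 hp3
          refine ⟨p, hp1, ?_, ?_⟩
          · have e1 : (p : ℝ) ≤ z := by exact_mod_cast hp2
            linarith
          · rw [hj]
            have : primorial z * t + (a + m0 * primorial z) + j = a + (m0 + t) * primorial z + j := by ring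
            rw [this]
            exact e0
      refine ⟨fun hqp => ?_, hmain⟩
      obtain ⟨p, hp1, hp2, hp3⟩ := hmain
      have e1 := (Nat.prime_dvd_prime_iff_eq hp1 hqp).1 hp3
      have e2 : (u : ℝ) ≤ p := by
        have : u ≤ p := by omega
        exact_mod_cast this
      linarith
  have hinj : Function.Injective (fun t : ℕ => primorial z * t + (a + m0 * primorial z)) := by
    intro t t' htt
    have h1 : primorial z * t + (a + m0 * primorial z) = primorial z * t' + (a + m0 * primorial z) := htt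
    exact Nat.eq_of_mul_eq_mul_left hQ1 (by omega)
  have hle : ((Set.ncard {t : ℕ | t < T ∧ ∀ k ∈ LG.rem (Finset.Icc 1 K) rr z, ∃ p : ℕ, p.Prime ∧
      (p : ℝ) ≤ h ^ r ∧ p ∣ primorial z * t + (a + m0 * primorial z) + k} : ℕ) : ℝ) ≤
      ((good r h X K).card : ℝ) := by
    have e1 := Set.ncard_le_ncard hsub (Finset.finite_toSet _)
    rw [Set.ncard_image_of_injective _ hinj, Set.ncard_coe_finset] at e1
    exact_mod_cast e1
  refine le_trans ?_ hle
  refine le_trans ?_ hcnt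
  have e1 : Real.exp (-(3 + 2 * z + Real.log h ^ (1 / 2 : ℝ))) =
      Real.exp (-(3 + 2 * (z : ℝ))) * Real.exp (-(Real.log h) ^ (1 / 2 : ℝ)) := by
    rw [← Real.exp_add]; congr 1; ring
  rw [e1, ← mul_assoc]
  apply mul_le_mul_of_nonneg_right _ (Real.exp_pos _).le
  refine le_trans ?_ hT8
  rw [div_eq_mul_inv]
  apply mul_le_mul_of_nonneg_left _ hh0'.le
  rw [Real.exp_neg]
  apply inv_anti₀ (by positivity)
  rw [Real.exp_add]
  have e2 : (8 : ℝ) ≤ Real.exp 3 := by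
    have e3 : Real.exp 3 = (Real.exp 1) ^ 3 := by
      rw [← Real.exp_nat_mul]; norm_num
    rw [e3]
    have := Real.exp_one_gt_d9
    calc (8 : ℝ) ≤ 2.7 ^ 3 := by norm_num
      _ ≤ (Real.exp 1) ^ 3 := by gcongr; linarith
  exact mul_le_mul e2 s2 hQ1'.le (by positivity)

theorem freq {r : ℝ} (hr : 0 < r) (hr1 : r ≤ 1 / 16) {A : ℕ} (hA : AMPC r (A + 1)) : ∃ c : ℝ, 0 < c ∧ ∃ h₀ : ℝ, ∀ (h L : ℝ) (X : ℕ), h₀ ≤ h →
    (X : ℝ) ≤ h ^ A → 1 ≤ L →
    L * l1 L ^ 2 ≤ c * Real.log (Real.log h) * l2 L →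
    h * Real.exp (-(Real.log h) ^ (1 - c * l2 L / (L * l1 L))) ≤
      ((good r h X ⌊L * (Real.log h * Real.log (Real.log h))⌋₊).card : ℝ) := by
  obtain ⟨c', hc', x0, hA⟩ := hA
  obtain ⟨x1, hx1⟩ := freq_size hr hr1
  obtain ⟨c, hc, hc1, H0, hpar⟩ := parG c' hc'
  refine ⟨c / 2, by positivity, max (max x0 x1) (Real.exp (max (max H0 1) (Real.exp (Real.exp 500)))),
    fun h L X hh hX hL hyp => ?_⟩
  have hh0 : x0 ≤ h := ((le_max_left _ _).trans (le_max_left _ _)).trans hh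
  have hh1 : x1 ≤ h := ((le_max_right _ _).trans (le_max_left _ _)).trans hh
  have hh2 : Real.exp (max (max H0 1) (Real.exp (Real.exp 500))) ≤ h := (le_max_right _ _).trans hh
  have hpos : 0 < h := (Real.exp_pos _).trans_le hh2
  obtain ⟨H, hH⟩ : ∃ H : ℝ, H = Real.log h := ⟨_, rfl⟩
  have hHge : max (max H0 1) (Real.exp (Real.exp 500)) ≤ H := by
    rw [hH, Real.le_log_iff_exp_le hpos]; exact hh2
  have hH0 : H0 ≤ H := ((le_max_left _ _).trans (le_max_left _ _)).trans hHge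
  have hH1 : 1 ≤ H := ((le_max_right _ _).trans (le_max_left _ _)).trans hHge
  have hHe : Real.exp (Real.exp 500) ≤ H := (le_max_right _ _).trans hHge
  have hHpos : 0 < H := by linarith
  have hΛ : Real.exp 500 ≤ Real.log H := by rw [Real.le_log_iff_exp_le hHpos]; exact hHe
  have hΛpos : 0 < Real.log H := (Real.exp_pos _).trans_le hΛ
  have hlΛ : 500 ≤ Real.log (Real.log H) := by rw [Real.le_log_iff_exp_le hΛpos]; exact hΛ
  rw [← hH] at hyp ⊢
  have hl1 : 2.75 ≤ l1 L := l1_ge hL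
  have hl2 : 1 ≤ l2 L := l2_ge hL
  have hl21 : l2 L ≤ l1 L := l2_le hL
  obtain ⟨w, z, hw2, hwz, hz200, hK, hcard, hz, hdel⟩ := hpar H L hH0 hL (by
    refine hyp.trans ?_
    apply mul_le_mul_of_nonneg_right _ (by linarith)
    apply mul_le_mul_of_nonneg_right _ hΛpos.le
    linarith)
  have hcnt := freq_count hA hx1 hh0 hh1 hX hwz hc'.le (by rw [← hH]; exact hz200) (by rw [← hH]; exact hK)
    (by rw [← hH]; exact hcard)
  rw [← hH] at hcnt
  refine le_trans ?_ hcnt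
  apply mul_le_mul_of_nonneg_left _ hpos.le
  apply Real.exp_le_exp.2
  apply neg_le_neg
  obtain ⟨dd, hdd⟩ : ∃ dd : ℝ, dd = c * l2 L / (L * l1 L) := ⟨_, rfl⟩
  have e1 : c / 2 * l2 L / (L * l1 L) = dd / 2 := by rw [hdd]; ring
  have e2 : 1000 * c * l2 L / (L * l1 L) = 1000 * dd := by rw [hdd]; ring
  rw [e2] at hdel
  rw [← hdd] at hz
  rw [e1]
  have hddpos : 0 < dd := by rw [hdd]; positivity
  have hdd1 : dd ≤ 1 / 2 := by
    rw [hdd, div_le_iff₀ (by positivity)]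
    have h1 : c * l2 L ≤ 1 * l2 L := mul_le_mul_of_nonneg_right hc1 (by linarith)
    have h2 : l1 L ≤ L * l1 L := le_mul_of_one_le_left (by linarith) hL
    have h3 : l2 L ≤ l1 L / 2 := by
      have h4 := Real.log_le_sub_one_of_pos (show 0 < l1 L / 2 by linarith)
      have h5 : l2 L = Real.log (l1 L / 2) + Real.log 2 := by
        rw [← Real.log_mul (by linarith) (by norm_num)]
        unfold l2 l1
        congr 1
        ring
      have := Real.log_two_lt_d9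
      linarith
    linarith
  have e3 : H ^ (1 / 2 : ℝ) ≤ H ^ (1 - dd) := Real.rpow_le_rpow_of_exponent_le hH1 (by linarith)
  have e4 : 2 ≤ H ^ (dd / 2) := by
    rw [Real.rpow_def_of_pos hHpos]
    have h1 : 1 ≤ Real.log H * (dd / 2) := by linarith
    have h2 := Real.add_one_le_exp (Real.log H * (dd / 2))
    linarith
  have e5 : H ^ (1 - dd / 2) = H ^ (dd / 2) * H ^ (1 - dd) := by
    rw [← Real.rpow_add hHpos]; congr 1; ring
  have e6 : 0 < H ^ (1 - dd) := Real.rpow_pos_of_pos hHpos _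
  rw [e5]
  have e7 : 2 * H ^ (1 - dd) ≤ H ^ (dd / 2) * H ^ (1 - dd) := mul_le_mul_of_nonneg_right e4 e6.le
  linarith

end Pool.Agent.H7.LX
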