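import Pool.Agent.H82.LW.Crv
import Pool.Agent.H7.LX.Freq

/-!
# The counting form of the amplitude theorem
-/

set_option autoImplicit false

open Finset EG

namespace Pool.Agent.H7.LX

open H52GS

theorem ampc_prim {x : ℝ} (hx : 1 ≤ x) {z : ℕ} (hz : 100 * (z : ℝ) ≤ Real.log x) :
    (primorial z : ℝ) ≤ x ^ (1 / 50 : ℝ) := by
  have hx0 : 0 < x := by linarith
  have h1 : (primorial z : ℝ) ≤ (4 : ℝ) ^ z := by
    exact_mod_cast primorial_le_four_pow _
  have h2 : ((4 : ℝ) ^ z) = Real.exp (Real.log 4 * (z : ℕ)) := by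
    rw [← Real.rpow_natCast, Real.rpow_def_of_pos (by norm_num)]
  have h4 : Real.log 4 ≤ 2 := by
    have h5 : (4 : ℝ) = 2 ^ (2 : ℕ) := by norm_num
    rw [h5, Real.log_pow]
    have := Real.log_two_lt_d9
    push_cast
    linarith
  refine h1.trans ?_
  rw [h2, Real.rpow_def_of_pos hx0]
  refine Real.exp_le_exp.2 ?_
  calc Real.log 4 * (z : ℕ) ≤ 2 * z := mul_le_mul_of_nonneg_right h4 (Nat.cast_nonneg _)
    _ ≤ Real.log x * (1 / 50) := by linarith

theorem ampc_size {x : ℝ} (hx4 : 4 ≤ x) (A : ℕ) {q t c0 i : ℕ} (hq : (q : ℝ) ≤ x) (ht : (t : ℝ) ≤ x) (ht0 : (0 : ℝ) ≤ t)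
    (hc0 : (c0 : ℝ) ≤ x ^ A) (hi : (i : ℝ) ≤ x ^ 2) : ((q * t + (c0 + i) : ℕ) : ℝ) ≤ x ^ (A + 3) := by
  have hxpos : 0 < x := by linarith
  have hx1 : 1 ≤ x := by linarith
  have e1 : (q : ℝ) * t ≤ x ^ 2 := by
    rw [pow_two]
    exact mul_le_mul hq ht ht0 hxpos.le
  have e2 : 1 ≤ x ^ A := one_le_pow₀ hx1
  have e3 : x ^ (A + 3) = x ^ A * x ^ 3 := pow_add _ _ _
  have e4 : 3 * x ^ 2 ≤ x ^ 3 := by
    rw [pow_succ x 2, mul_comm (x ^ 2) x]
    exact mul_le_mul_of_nonneg_right (by linarith) (by positivity)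
  have e5 : x ^ 2 ≤ x ^ A * x ^ 2 := le_mul_of_one_le_left (by positivity) e2
  have e6 : x ^ A ≤ x ^ A * x ^ 2 := le_mul_of_one_le_right (by positivity) (one_le_pow₀ hx1)
  have e7 : x ^ A * (3 * x ^ 2) ≤ x ^ A * x ^ 3 := mul_le_mul_of_nonneg_left e4 (by positivity)
  have e8 : x ^ A * (3 * x ^ 2) = 3 * (x ^ A * x ^ 2) := by ring
  push_cast
  rw [e3]
  linarith

set_option maxHeartbeats 4000000 in
theorem ampc {r : ℝ} (hr : 0 < r) (hr1 : r ≤ 1 / 16) (A : ℕ) : AMPC r A := by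
  classical
  obtain ⟨c, hc, C0, hC0, m0, hcore⟩ := corW (A + 3) (by omega) hr hr1
  have hC0p : 0 < C0 := by linarith
  refine ⟨c / (12 * C0), by positivity,
    Real.exp (Real.exp (max (max 3 (4 * C0)) (2 * C0 * (m0 + 1)))), ?_⟩
  intro x hx z c0 T S hz hc0 hTx hS hcard hT
  have hxpos : 0 < x := (Real.exp_pos _).trans_le hx
  have hL : Real.exp (max (max 3 (4 * C0)) (2 * C0 * (m0 + 1))) ≤ Real.log x := (Real.le_log_iff_exp_le hxpos).2 hx
  have hLpos : 0 < Real.log x := (Real.exp_pos _).trans_le hL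
  have hLL : max (max 3 (4 * C0)) (2 * C0 * (m0 + 1)) ≤ Real.log (Real.log x) := (Real.le_log_iff_exp_le hLpos).2 hL
  have hLL3 : 3 ≤ Real.log (Real.log x) := ((le_max_left _ _).trans (le_max_left _ _)).trans hLL
  have hLL4 : 4 * C0 ≤ Real.log (Real.log x) := ((le_max_right _ _).trans (le_max_left _ _)).trans hLL
  have hLLm : 2 * C0 * (m0 + 1) ≤ Real.log (Real.log x) := (le_max_right _ _).trans hLL
  have hL3 : 3 ≤ Real.log x := by
    have := Real.add_one_le_exp (Real.log (Real.log x))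
    rw [Real.exp_log hLpos] at this
    linarith
  have hx3 : Real.exp 3 ≤ x := (Real.le_log_iff_exp_le hxpos).1 hL3
  have hx4 : 4 ≤ x := by
    have := Real.add_one_le_exp (3 : ℝ)
    linarith
  have hx1 : 1 ≤ x := by linarith
  have hQ := ampc_prim hx1 hz
  have hQ0 : (0 : ℝ) < primorial z := by exact_mod_cast primorial_pos z
  obtain ⟨K, hK⟩ : ∃ K : ℕ, K = ⌈Real.log x ^ 2⌉₊ := ⟨_, rfl⟩
  have hKge : Real.log x ^ 2 ≤ K := by rw [hK]; exact Nat.le_ceil _
  have hKle : (K : ℝ) ≤ Real.log x ^ 2 + 1 := by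
    rw [hK]
    exact (Nat.ceil_lt_add_one (by positivity)).le
  have hKle3 : (K : ℝ) ≤ Real.log x ^ 3 := by
    nlinarith [mul_nonneg (by linarith : (0 : ℝ) ≤ Real.log x - 3) (sq_nonneg (Real.log x))]
  have hKpos : (0 : ℝ) < K := by
    have : 0 < Real.log x ^ 2 := by positivity
    linarith
  have hlogK : Real.log K ≤ 3 * Real.log (Real.log x) := by
    have h1 := Real.log_le_log hKpos hKle3
    rw [Real.log_pow] at h1
    exact_mod_cast h1
  obtain ⟨m, hm1, hm2⟩ : ∃ m : ℕ, (m : ℝ) ≤ Real.log (Real.log x) / (2 * C0) ∧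
      Real.log (Real.log x) / (2 * C0) < m + 1 :=
    ⟨⌊Real.log (Real.log x) / (2 * C0)⌋₊, Nat.floor_le (by positivity), Nat.lt_floor_add_one _⟩
  have hmm : m0 ≤ m := by
    have h1 : (m0 : ℝ) + 1 ≤ Real.log (Real.log x) / (2 * C0) := by
      rw [le_div_iff₀ (by positivity)]
      linarith
    have h2 : (m0 : ℝ) < m + 1 := by linarith
    have h3 : m0 < m + 1 := by exact_mod_cast h2
    omega
  have hmC : C0 * m ≤ 1 / 2 * Real.log (Real.log x) := by
    rw [le_div_iff₀ (by positivity)] at hm1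
    linarith
  have hmge : Real.log (Real.log x) / (4 * C0) ≤ m := by
    have h1 : Real.log (Real.log x) / (2 * C0) = 2 * (Real.log (Real.log x) / (4 * C0)) := by field_simp; ring
    have h2 : 1 ≤ Real.log (Real.log x) / (4 * C0) := by
      rw [le_div_iff₀ (by positivity)]
      linarith
    linarith
  have hexp : Real.exp (C0 * m) ≤ Real.log x ^ (1 / 2 : ℝ) := by
    rw [Real.rpow_def_of_pos hLpos]
    apply Real.exp_le_exp.2
    linarith
  have hhalf : Real.log x ^ (1 / 2 : ℝ) ≤ Real.log x := by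
    calc Real.log x ^ (1 / 2 : ℝ) ≤ Real.log x ^ (1 : ℝ) :=
          Real.rpow_le_rpow_of_exponent_le (by linarith) (by norm_num)
      _ = Real.log x := Real.rpow_one _
  have hFm : Fm 1 K (primorial z) (fun i : {k // k ∈ S} => c0 + (i : ℕ)) := by
    refine ⟨primorial_pos z, le_rfl, ?_, ?_, ?_, ?_⟩
    · intro p hp hpd hKp
      exfalso
      have h1 : p ≤ z := (hp.dvd_primorial_iff).1 hpd
      have h2 : (p : ℝ) ≤ K := by
        refine le_trans ?_ hKge
        have h3 : (p : ℝ) ≤ z := by exact_mod_cast h1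
        nlinarith
      have h4 : p ≤ K := by exact_mod_cast h2
      omega
    · intro i j hij
      have : (i : ℕ) = j := by
        have h := hij
        simp only at h
        omega
      exact Subtype.ext this
    · intro i j hij p hp hKp hd
      exfalso
      have hi := hS i i.2
      have hj := hS j j.2
      have h1 : ((i : ℕ) : ℝ) ≤ K := hi.2.1.trans hKge
      have h2 : ((j : ℕ) : ℝ) ≤ K := hj.2.1.trans hKge
      have h1' : (i : ℕ) ≤ K := by exact_mod_cast h1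
      have h2' : (j : ℕ) ≤ K := by exact_mod_cast h2
      have hne : (i : ℕ) ≠ j := fun h => hij (Subtype.ext h)
      have h3 : ((c0 + (i : ℕ) : ℕ) : ℤ) - ((c0 + (j : ℕ) : ℕ) : ℤ) ≠ 0 := by
        push_cast
        omega
      have h4 := Int.le_of_dvd (abs_pos.2 h3) ((dvd_abs _ _).2 hd)
      have h5 : |((c0 + (i : ℕ) : ℕ) : ℤ) - ((c0 + (j : ℕ) : ℕ) : ℤ)| ≤ K := by
        rw [abs_le]
        push_cast
        constructor <;> omega
      omega
    · intro i
      have hi := (hS i i.2).1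
      show 1 ≤ c0 + (i : ℕ)
      omega
  have hlogx : Real.log x ^ 2 ≤ x ^ 2 := by
    have h1 := Real.log_le_sub_one_of_pos hxpos
    apply pow_le_pow_left₀ hLpos.le
    linarith
  have hbig : ∀ i : {k // k ∈ S}, ∀ t < T, ((primorial z * t + (c0 + (i : ℕ)) : ℕ) : ℝ) ≤ x ^ (A + 3) := by
    intro i t ht
    have hi := (hS i i.2).2.1
    have ht' : (t : ℝ) ≤ x := by
      have : (t : ℝ) < T := by exact_mod_cast ht
      linarith
    have hQx : (primorial z : ℝ) ≤ x := by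
      refine hQ.trans ?_
      calc x ^ (1 / 50 : ℝ) ≤ x ^ (1 : ℝ) := Real.rpow_le_rpow_of_exponent_le hx1 (by norm_num)
        _ = x := Real.rpow_one x
    exact ampc_size hx4 A hQx ht' (Nat.cast_nonneg _) hc0 (hi.trans hlogx)
  have hcd : (Fintype.card {k // k ∈ S} : ℝ) * Real.log K ≤ c * m * Real.log x := by
    rw [Fintype.card_coe]
    have hlK0 : 0 ≤ Real.log K := Real.log_nonneg (by nlinarith)
    calc (S.card : ℝ) * Real.log K ≤ (c / (12 * C0) * Real.log x) * (3 * Real.log (Real.log x)) :=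
          mul_le_mul hcard hlogK hlK0 (by positivity)
      _ = c * (Real.log (Real.log x) / (4 * C0)) * Real.log x := by field_simp; ring
      _ ≤ c * m * Real.log x := by
          apply mul_le_mul_of_nonneg_right _ hLpos.le
          exact mul_le_mul_of_nonneg_left hmge hc.le
  have hW1 : Real.log ((1 : ℕ) : ℝ) ≤ 1 / 2 * (K * Real.log K) := by
    rw [Nat.cast_one, Real.log_one]
    have := Real.log_natCast_nonneg K
    positivity
  have hres := hcore m hmm x hx1 (hexp.trans hhalf) {k // k ∈ S} 1 K (primorial z) T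
    (fun i : {k // k ∈ S} => c0 + (i : ℕ)) ((hexp.trans hhalf).trans (by nlinarith))
    (hKle3.trans (pow_le_pow_right₀ (by linarith) (by omega))) hFm hW1 hcd hT hbig
  have hset : {t : ℕ | t < T ∧ ∀ k ∈ S, ∃ p : ℕ, p.Prime ∧ (p : ℝ) ≤ x ^ r ∧
      p ∣ primorial z * t + c0 + k} =
      (((range T).filter (fun t => ∀ i : {k // k ∈ S}, ∃ p : ℕ, p.Prime ∧ (p : ℝ) ≤ x ^ r ∧
        p ∣ primorial z * t + (c0 + (i : ℕ))) : Finset ℕ) : Set ℕ) := by
    ext t
    simp only [Set.mem_ofPred_eq, Finset.coe_filter, Finset.mem_range]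
    constructor
    · rintro ⟨h1, h2⟩
      refine ⟨h1, fun i => ?_⟩
      obtain ⟨p, hp1, hp2, hp3⟩ := h2 i i.2
      exact ⟨p, hp1, hp2, by rw [← add_assoc]; exact hp3⟩
    · rintro ⟨h1, h2⟩
      refine ⟨h1, fun k hk => ?_⟩
      obtain ⟨p, hp1, hp2, hp3⟩ := h2 ⟨k, hk⟩
      exact ⟨p, hp1, hp2, by rw [add_assoc]; exact hp3⟩
  rw [hset, Set.ncard_coe_finset]
  have hE : Real.exp (Real.exp (C0 * m)) ≤ Real.exp (Real.log x ^ (1 / 2 : ℝ)) := Real.exp_le_exp.2 hexp
  rw [Real.exp_neg, ← div_eq_mul_inv, div_le_iff₀ (Real.exp_pos _), mul_comm]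
  exact hres.trans (mul_le_mul_of_nonneg_right hE (Nat.cast_nonneg _))

end Pool.Agent.H7.LX
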