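import Mathlib

/-!
# Large gaps between primes (MP_028722_nt): the interface
-/

set_option autoImplicit false

namespace Pool.Agent.H7.LX

/-- the amplitude theorem: for every set `S` of at most `c log x` shifts the numbers
`primorial z * t + c0 + k`, `k ∈ S`, all have a small prime factor, for some `t` -/
def AMP : Prop := ∃ c : ℝ, 0 < c ∧ ∃ x0 : ℝ, ∀ x : ℝ, x0 ≤ x → ∀ (z c0 : ℕ) (S : Finset ℕ),
  100 * (z : ℝ) ≤ Real.log x →
  (∀ k ∈ S, 1 ≤ k ∧ (k : ℝ) ≤ Real.log x ^ 2 ∧ Nat.Coprime (c0 + k) (primorial z)) →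
  (S.card : ℝ) ≤ c * Real.log x →
  ∃ t : ℕ, (t : ℝ) * primorial z ≤ x ∧
    ∀ k ∈ S, ∃ p : ℕ, p.Prime ∧ (p : ℝ) ≤ x ^ (1 / 16 : ℝ) ∧ p ∣ primorial z * t + c0 + k

end Pool.Agent.H7.LX
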