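import Pool.Agent.H7.LX.AmpC
import Pool.Agent.H82.LW.Gen1

/-!
# Frequency of long prime-free intervals, full range

`H52GS.gen1` (few arbitrary shifts without primes, up to `c log x log log x` shifts) and `freq` (intervals up to the length of
`LargeGaps`).
-/

set_option autoImplicit false

namespace Pool.Agent.H7.LX

open Pool.Agent.H7.LG Filter

/-- intervals up to the record length, any exponent `r` -/
theorem freq_int {r : ℝ} (hr : 0 < r) (A : ℝ) :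
    ∃ c : ℝ, 0 < c ∧ ∃ x0 : ℝ, ∀ x : ℝ, x0 ≤ x → ∀ X : ℕ, (X : ℝ) ≤ x ^ A → ∀ L : ℝ, 1 ≤ L →
      L * Real.log (16 + L) ^ 2 ≤ c * Real.log (Real.log x) * Real.log (Real.log (16 + L)) →
      x * Real.exp (-Real.log x ^ (1 - c * Real.log (Real.log (16 + L)) / (L * Real.log (16 + L)))) ≤
        (Set.ncard {n : ℕ | X < n ∧ (n : ℝ) ≤ X + x ∧ ∀ k : ℕ, n < k →
          (k : ℝ) ≤ n + L * (Real.log x * Real.log (Real.log x)) →
          ¬ k.Prime ∧ ∃ p : ℕ, p.Prime ∧ (p : ℝ) ≤ x ^ r ∧ p ∣ k} : ℝ) := by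
  obtain ⟨r1, hr1def⟩ : ∃ r1 : ℝ, r1 = min r (1 / 16) := ⟨_, rfl⟩
  have hr1 : 0 < r1 := by rw [hr1def]; exact lt_min hr (by norm_num)
  have hr1r : r1 ≤ r := by rw [hr1def]; exact min_le_left _ _
  have hr116 : r1 ≤ 1 / 16 := by rw [hr1def]; exact min_le_right _ _
  obtain ⟨c, hc, x1, h1⟩ := freq hr1 hr116 (A := ⌈A⌉₊) (ampc hr1 hr116 (⌈A⌉₊ + 1))
  refine ⟨c, hc, max x1 1, fun x hx X hX L hL hyp => ?_⟩
  have hx1 : x1 ≤ x := (le_max_left _ _).trans hx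
  have hx1' : 1 ≤ x := (le_max_right _ _).trans hx
  have hXA : (X : ℝ) ≤ x ^ (⌈A⌉₊ : ℕ) := by
    refine hX.trans ?_
    rw [← Real.rpow_natCast]
    exact Real.rpow_le_rpow_of_exponent_le hx1' (Nat.le_ceil A)
  refine (h1 x L X hx1 hXA hL hyp).trans ?_
  have hfin : ({n : ℕ | X < n ∧ (n : ℝ) ≤ X + x ∧ ∀ k : ℕ, n < k →
      (k : ℝ) ≤ n + L * (Real.log x * Real.log (Real.log x)) →
      ¬ k.Prime ∧ ∃ p : ℕ, p.Prime ∧ (p : ℝ) ≤ x ^ r ∧ p ∣ k}).Finite := by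
    refine (Set.finite_Iic (X + ⌊x⌋₊)).subset ?_
    rintro n ⟨h1, h2, -⟩
    obtain ⟨j, hj⟩ : ∃ j : ℕ, n = X + j := ⟨n - X, by omega⟩
    rw [hj] at h2 ⊢
    push_cast at h2
    have h4 : j ≤ ⌊x⌋₊ := Nat.le_floor (by linarith)
    exact Set.mem_Iic.2 (by omega)
  rw [← Set.ncard_coe_finset]
  refine Nat.cast_le.2 (Set.ncard_le_ncard ?_ hfin)
  intro n hn
  rw [Finset.mem_coe, mem_good] at hn
  obtain ⟨⟨h2, h3⟩, h4⟩ := hn
  refine ⟨h2, ?_, fun k hnk hk => ?_⟩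
  · have h5 : (n : ℝ) ≤ ((X + ⌊x⌋₊ : ℕ) : ℝ) := by exact_mod_cast h3
    push_cast at h5
    have h6 := Nat.floor_le (show 0 ≤ x by linarith)
    linarith
  · obtain ⟨j, hj⟩ : ∃ j : ℕ, k = n + j := ⟨k - n, by omega⟩
    have hjw : (j : ℝ) ≤ L * (Real.log x * Real.log (Real.log x)) := by
      rw [hj] at hk
      push_cast at hk
      linarith
    have hjK := Nat.le_floor hjw
    obtain ⟨h5, p, hp1, hp2, hp3⟩ := h4 k hnk (by omega)
    exact ⟨h5, p, hp1, hp2.trans (Real.rpow_le_rpow_of_exponent_le hx1' hr1r), hp3⟩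

/-- arbitrary shifts, with `Set.ncard` -/
theorem freq_gen {r A : ℝ} (hr : 0 < r) (hA : 0 < A) :
    ∃ c : ℝ, 0 < c ∧ ∃ C x0 : ℝ, ∀ x : ℝ, x0 ≤ x →
      ∀ lam : ℝ, 1 ≤ lam → lam ≤ c * Real.log (Real.log x) →
      ∀ S : Finset ℤ, (S.card : ℝ) ≤ lam * Real.log x → (∀ s ∈ S, |(s : ℝ)| ≤ x ^ A) →
      x * Real.exp (-Real.exp (C * lam)) ≤
        (Set.ncard {n : ℕ | 0 < n ∧ (n : ℝ) ≤ x ∧ ∀ s ∈ S, ∀ k : ℕ, 0 < k → (k : ℤ) = n + s →
          ¬ k.Prime ∧ ∃ p : ℕ, p.Prime ∧ (p : ℝ) ≤ x ^ r ∧ p ∣ k} : ℝ) := by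
  classical
  obtain ⟨c, hc, C, x0, h⟩ := H52GS.gen1 hr hA
  refine ⟨c, hc, C, max x0 1, fun x hx lam h1 h2 S hS1 hS2 => ?_⟩
  have hx1 : x0 ≤ x := (le_max_left _ _).trans hx
  have hx1' : 1 ≤ x := (le_max_right _ _).trans hx
  refine (h x hx1 lam h1 h2 S hS1 hS2).trans ?_
  have hfin : ({n : ℕ | 0 < n ∧ (n : ℝ) ≤ x ∧ ∀ s ∈ S, ∀ k : ℕ, 0 < k → (k : ℤ) = n + s →
      ¬ k.Prime ∧ ∃ p : ℕ, p.Prime ∧ (p : ℝ) ≤ x ^ r ∧ p ∣ k}).Finite := by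
    refine (Set.finite_Iic ⌊x⌋₊).subset ?_
    rintro n ⟨-, h2, -⟩
    exact Set.mem_Iic.2 (Nat.le_floor h2)
  rw [← Set.ncard_coe_finset]
  refine Nat.cast_le.2 (Set.ncard_le_ncard ?_ hfin)
  intro n hn
  rw [Finset.mem_coe, Finset.mem_filter, Finset.mem_Icc] at hn
  obtain ⟨⟨h3, h4⟩, h5⟩ := hn
  refine ⟨h3, (Nat.le_floor_iff (by linarith)).1 h4, fun s hs k hk hks => ?_⟩
  exact h5 k hk (by rw [hks]; simpa using hs)

theorem frequency {r A : ℝ} (hr : 0 < r) (hA : 0 < A) :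
    ∃ c : ℝ, 0 < c ∧ ∃ C x0 : ℝ, ∀ x : ℝ, x0 ≤ x →
      (∀ lam : ℝ, 1 ≤ lam → lam ≤ c * Real.log (Real.log x) →
        ∀ S : Finset ℤ, (S.card : ℝ) ≤ lam * Real.log x → (∀ s ∈ S, |(s : ℝ)| ≤ x ^ A) →
        x * Real.exp (-Real.exp (C * lam)) ≤
          (Set.ncard {n : ℕ | 0 < n ∧ (n : ℝ) ≤ x ∧ ∀ s ∈ S, ∀ k : ℕ, 0 < k → (k : ℤ) = n + s →
            ¬ k.Prime ∧ ∃ p : ℕ, p.Prime ∧ (p : ℝ) ≤ x ^ r ∧ p ∣ k} : ℝ)) ∧
      (∀ X : ℕ, (X : ℝ) ≤ x ^ A → ∀ L : ℝ, 1 ≤ L →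
        L * Real.log (16 + L) ^ 2 ≤ c * Real.log (Real.log x) * Real.log (Real.log (16 + L)) →
        x * Real.exp
            (-Real.log x ^ (1 - c * Real.log (Real.log (16 + L)) / (L * Real.log (16 + L)))) ≤
          (Set.ncard {n : ℕ | X < n ∧ (n : ℝ) ≤ X + x ∧ ∀ k : ℕ, n < k →
            (k : ℝ) ≤ n + L * (Real.log x * Real.log (Real.log x)) →
            ¬ k.Prime ∧ ∃ p : ℕ, p.Prime ∧ (p : ℝ) ≤ x ^ r ∧ p ∣ k} : ℝ)) := by
  obtain ⟨c1, hc1, C, x1, h1⟩ := freq_gen hr hA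
  obtain ⟨c2, hc2, x2, h2⟩ := freq_int hr A
  refine ⟨min c1 c2, lt_min hc1 hc2, C, max (max x1 x2) (Real.exp (Real.exp 1)), fun x hx => ?_⟩
  have hx1 : x1 ≤ x := ((le_max_left _ _).trans (le_max_left _ _)).trans hx
  have hx2 : x2 ≤ x := ((le_max_right _ _).trans (le_max_left _ _)).trans hx
  have hx3 : Real.exp (Real.exp 1) ≤ x := (le_max_right _ _).trans hx
  have hxpos : 0 < x := (Real.exp_pos _).trans_le hx3
  have hlx : Real.exp 1 ≤ Real.log x := (Real.le_log_iff_exp_le hxpos).2 hx3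
  have hlxpos : 0 < Real.log x := (Real.exp_pos _).trans_le hlx
  have hllx : 1 ≤ Real.log (Real.log x) := (Real.le_log_iff_exp_le hlxpos).2 hlx
  have hlx1 : 1 ≤ Real.log x := by
    have h3 := Real.add_one_le_exp (1 : ℝ)
    linarith
  have hc12 : min c1 c2 ≤ c1 := min_le_left _ _
  have hc22 : min c1 c2 ≤ c2 := min_le_right _ _
  refine ⟨fun lam hlam hl => h1 x hx1 lam hlam (hl.trans ?_), fun X hX L hL hyp => ?_⟩
  · exact mul_le_mul_of_nonneg_right hc12 (by linarith)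
  · have hl1 : 2.75 ≤ Real.log (16 + L) := l1_ge hL
    have hl2 : 1 ≤ Real.log (Real.log (16 + L)) := l2_ge hL
    refine le_trans ?_ (h2 x hx2 X hX L hL (hyp.trans ?_))
    · apply mul_le_mul_of_nonneg_left _ hxpos.le
      apply Real.exp_le_exp.2
      apply neg_le_neg
      apply Real.rpow_le_rpow_of_exponent_le hlx1
      have e1 : min c1 c2 * Real.log (Real.log (16 + L)) / (L * Real.log (16 + L)) ≤
          c2 * Real.log (Real.log (16 + L)) / (L * Real.log (16 + L)) := by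
        apply div_le_div_of_nonneg_right _ (by positivity)
        exact mul_le_mul_of_nonneg_right hc22 (by linarith)
      linarith
    · apply mul_le_mul_of_nonneg_right _ (by linarith)
      exact mul_le_mul_of_nonneg_right hc22 (by linarith)

end Pool.Agent.H7.LX
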