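import Mathlib

/-!
# A prime-free interval gives a gap between consecutive primes
-/

set_option autoImplicit false

namespace Pool.Agent.H7.LX

theorem gap_of_free {n K : ℕ} (hn : 2 ≤ n) (hf : ∀ p : ℕ, p.Prime → n < p → n + K < p) :
    ∃ p q : ℕ, p.Prime ∧ q.Prime ∧ p < q ∧ q ≤ 2 * (n + K) ∧ (∀ r : ℕ, p < r → r < q → ¬ r.Prime) ∧
      p ≤ n ∧ n + K < q := by
  classical
  have h1 : ∃ q : ℕ, q.Prime ∧ n + K < q := by
    obtain ⟨q, hq, h2, -⟩ := Nat.exists_prime_lt_and_le_two_mul (n + K) (by omega)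
    exact ⟨q, hq, h2⟩
  have h2 : ∃ m : ℕ, ∃ p : ℕ, p.Prime ∧ p + m = n := ⟨n - 2, 2, Nat.prime_two, by omega⟩
  obtain ⟨p, hp, hpm⟩ := Nat.find_spec h2
  obtain ⟨hq, hqn⟩ := Nat.find_spec h1
  refine ⟨p, Nat.find h1, hp, hq, by omega, ?_, ?_, by omega, hqn⟩
  · obtain ⟨q, hq', h3, h4⟩ := Nat.exists_prime_lt_and_le_two_mul (n + K) (by omega)
    exact (Nat.find_min' h1 ⟨hq', h3⟩).trans h4
  · intro r hpr hrq hr
    rcases le_or_gt r n with h5 | h5
    · have h6 := Nat.find_min' h2 ⟨r, hr, (by omega : r + (n - r) = n)⟩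
      omega
    · have h6 := hf r hr h5
      have h7 := Nat.find_min' h1 ⟨hr, h6⟩
      omega

end Pool.Agent.H7.LX
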