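import Pool.Agent.H7.LX.Defs
import Pool.Agent.H7.LX.Gap
import Pool.Agent.H7.LX.Par
import Pool.Agent.H7.LG.Rows

/-!
# Large gaps between primes from the amplitude theorem
-/

set_option autoImplicit false

namespace Pool.Agent.H7.LX

open Pool.Agent.H7.LG Pool.Agent.H67.GT Filter

/-- sizes -/
theorem main_size : ∃ x1 : ℝ, ∀ x : ℝ, x1 ≤ x → 32 ≤ x ∧ 6 ≤ Real.log x ∧ ∀ z : ℕ, 200 * (z : ℝ) ≤ Real.log x →
    2 * (primorial z : ℝ) + Real.log x ^ 2 ≤ x / 8 ∧ (z : ℝ) ≤ x ^ (1 / 16 : ℝ) := by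
  have h1 : ∀ᶠ x : ℝ in atTop, Real.log x ^ 2 ≤ x ^ (1 / 2 : ℝ) := by
    have h := (isLittleO_log_rpow_atTop (r := 1 / 4) (by norm_num)).bound
      (show (0 : ℝ) < 1 by norm_num)
    filter_upwards [h, eventually_ge_atTop (1 : ℝ)] with y h1 hy
    have h2 : 0 ≤ Real.log y := Real.log_nonneg hy
    rw [Real.norm_of_nonneg h2, Real.norm_of_nonneg (by positivity), one_mul] at h1
    calc Real.log y ^ 2 ≤ (y ^ (1 / 4 : ℝ)) ^ 2 := pow_le_pow_left₀ h2 h1 2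
      _ = y ^ (1 / 2 : ℝ) := by
        rw [← Real.rpow_natCast, ← Real.rpow_mul (by linarith)]
        norm_num
  have h2 := (tendsto_rpow_atTop (show (0 : ℝ) < 1 / 2 by norm_num)).eventually_ge_atTop 100
  have h3 := Real.tendsto_log_atTop.eventually_ge_atTop 6
  obtain ⟨x1, hx1⟩ := eventually_atTop.1 (h1.and (h2.and (h3.and (eventually_ge_atTop (32 : ℝ)))))
  refine ⟨x1, fun x hx => ?_⟩
  obtain ⟨a1, a2, a3, a4⟩ := hx1 x hx
  refine ⟨a4, a3, fun z hz => ?_⟩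
  have hx0 : (0 : ℝ) < x := by linarith
  have hP : (4 : ℝ) ^ z ≤ x ^ (1 / 16 : ℝ) := by
    rw [← Real.log_le_log_iff (by positivity) (by positivity), Real.log_pow, Real.log_rpow hx0]
    have e2 : Real.log 4 ≤ 2 := by
      have h3 : Real.log 4 = 2 * Real.log 2 := by
        rw [show (4 : ℝ) = 2 ^ 2 by norm_num, Real.log_pow]; push_cast; ring
      have := Real.log_two_lt_d9
      linarith
    have e3 := mul_le_mul_of_nonneg_left e2 (Nat.cast_nonneg z : (0 : ℝ) ≤ z)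
    linarith
  have hP1 : (primorial z : ℝ) ≤ 4 ^ z := by exact_mod_cast primorial_le_four_pow z
  have hP2 : (z : ℝ) ≤ 4 ^ z := by
    exact_mod_cast (Nat.lt_pow_self (by norm_num : 1 < 4)).le
  refine ⟨?_, hP2.trans hP⟩
  obtain ⟨s, hs, hs2⟩ : ∃ s : ℝ, s = x ^ (1 / 2 : ℝ) ∧ s * s = x :=
    ⟨_, rfl, by rw [← Real.rpow_add hx0]; norm_num⟩
  rw [← hs] at a1 a2
  have hu : x ^ (1 / 16 : ℝ) ≤ s := by
    rw [hs]
    exact Real.rpow_le_rpow_of_exponent_le (by linarith) (by norm_num)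
  nlinarith

/-- every interval of length `x/4` contains a long interval free of rough numbers -/
theorem free (hA : AMP) : ∃ c : ℝ, 0 < c ∧ ∃ x0 : ℝ, ∀ x : ℝ, x0 ≤ x → ∀ X : ℕ, ∃ n K : ℕ,
    X ≤ n ∧ (n : ℝ) + K ≤ X + x / 4 ∧
    c * Real.log x * Real.log (Real.log x) ^ 2 * Real.log (Real.log (Real.log (Real.log x))) /
      Real.log (Real.log (Real.log x)) ^ 2 ≤ (K : ℝ) ∧
    ∀ k : ℕ, n < k → k ≤ n + K → ∃ r : ℕ, r.Prime ∧ (r : ℝ) ≤ x ^ (1 / 16 : ℝ) ∧ r ∣ k := by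
  obtain ⟨c', hc', x0, hA⟩ := hA
  obtain ⟨c, hc, y0, hp⟩ := par c' hc'
  obtain ⟨x1, hx1⟩ := main_size
  refine ⟨c, hc, max (max (8 * x0) (Real.exp y0)) x1, fun x hx X => ?_⟩
  have hxa : 8 * x0 ≤ x := le_trans (le_trans (le_max_left _ _) (le_max_left _ _)) hx
  have hxb : Real.exp y0 ≤ x := le_trans (le_trans (le_max_right _ _) (le_max_left _ _)) hx
  obtain ⟨hx1', hy6, hsize⟩ := hx1 x (le_trans (le_max_right _ _) hx)
  have hx0 : 0 < x := by linarith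
  obtain ⟨y, hy⟩ : ∃ y : ℝ, y = Real.log x := ⟨_, rfl⟩
  rw [← hy] at hy6 hsize ⊢
  have hyy0 : y0 ≤ y := by
    rw [hy, Real.le_log_iff_exp_le hx0]
    exact hxb
  obtain ⟨w, z, K, hw2, hwz, hz200, hK1, hK2, hcard⟩ := hp y hyy0
  have hlog8 : Real.log 8 ≤ 3 := by
    have h3 : Real.log 8 = 3 * Real.log 2 := by
      rw [show (8 : ℝ) = 2 ^ 3 by norm_num, Real.log_pow]; push_cast; ring
    have := Real.log_two_lt_d9
    linarith
  have hlx' : y / 2 ≤ Real.log (x / 8) := by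
    rw [Real.log_div hx0.ne' (by norm_num), ← hy]
    linarith
  obtain ⟨r, hr⟩ := Rows_R K w z hwz
  obtain ⟨a, haQ, ha⟩ := crt r z
  obtain ⟨hsz, hzx⟩ := hsize z hz200
  have hQ1 : 0 < primorial z := primorial_pos z
  obtain ⟨m0, hm1, hm2⟩ : ∃ m0 : ℕ, X ≤ m0 * primorial z ∧ m0 * primorial z ≤ X + primorial z := by
    refine ⟨X / primorial z + 1, ?_, ?_⟩
    · have h5 := Nat.lt_mul_div_succ X hQ1
      rw [Nat.mul_comm] at h5
      exact h5.le
    · have h5 := Nat.div_mul_le_self X (primorial z)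
      rw [Nat.add_mul, Nat.one_mul]
      omega
  have hK3 : (K : ℝ) ≤ (y / 2) ^ 2 := by linarith
  have hK4 : (K : ℝ) ≤ y ^ 2 := by nlinarith [sq_nonneg y]
  obtain ⟨t, ht1, ht2⟩ := hA (x / 8) (by linarith) z (a + m0 * primorial z) (LG.rem (Finset.Icc 1 K) r z)
    (by linarith) (by
      intro k hk
      rw [mem_rem, Finset.mem_Icc] at hk
      obtain ⟨⟨hk1, hk2⟩, hk3⟩ := hk
      refine ⟨hk1, ?_, ?_⟩
      · have e1 : (k : ℝ) ≤ K := by exact_mod_cast hk2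
        exact (e1.trans hK3).trans (pow_le_pow_left₀ (by linarith) hlx' 2)
      · rw [Nat.Coprime, Nat.eq_one_iff_not_exists_prime_dvd]
        intro p hpp hpd
        have e1 := (Nat.dvd_gcd_iff.1 hpd)
        have e2 : p ≤ z := by
          have e3 := e1.2
          rw [primorial, Prime.dvd_finsetProd_iff hpp.prime] at e3
          obtain ⟨q, hq, hpq⟩ := e3
          rw [Finset.mem_filter, Finset.mem_range] at hq
          have := (Nat.prime_dvd_prime_iff_eq hpp hq.2).1 hpq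
          omega
        exact hk3 p hpp e2 ((ha p hpp e2 m0 k).1 e1.1)) (by
      refine (hr.trans hcard).trans ?_
      exact mul_le_mul_of_nonneg_left hlx' hc'.le)
  refine ⟨primorial z * t + (a + m0 * primorial z), K, by omega, ?_, hK1, ?_⟩
  · have e1 : ((primorial z * t + (a + m0 * primorial z) : ℕ) : ℝ) =
        (t : ℝ) * primorial z + (a : ℝ) + ((m0 * primorial z : ℕ) : ℝ) := by push_cast; ring
    have e2 : ((m0 * primorial z : ℕ) : ℝ) ≤ X + primorial z := by exact_mod_cast hm2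
    have e3 : (a : ℝ) ≤ primorial z := by exact_mod_cast haQ.le
    rw [e1]
    linarith
  · intro q hnq hqn
    obtain ⟨j, hj⟩ : ∃ j : ℕ, q = primorial z * t + (a + m0 * primorial z) + j :=
      ⟨q - (primorial z * t + (a + m0 * primorial z)), by omega⟩
    have hj1 : j ∈ Finset.Icc 1 K := Finset.mem_Icc.2 ⟨by omega, by omega⟩
    by_cases hjr : j ∈ LG.rem (Finset.Icc 1 K) r z
    · obtain ⟨p, hp1, hp2, hp3⟩ := ht2 j hjr
      refine ⟨p, hp1, ?_, by rw [hj]; exact hp3⟩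
      have e4 : (x / 8) ^ (1 / 16 : ℝ) ≤ x ^ (1 / 16 : ℝ) :=
        Real.rpow_le_rpow (by linarith) (by linarith) (by norm_num)
      linarith
    · rw [mem_rem] at hjr
      push Not at hjr
      obtain ⟨p, hp1, hp2, hp3⟩ := hjr hj1
      have e0 := (ha p hp1 hp2 (m0 + t) j).2 hp3
      refine ⟨p, hp1, ?_, ?_⟩
      · have e1 : (p : ℝ) ≤ z := by exact_mod_cast hp2
        linarith
      · rw [hj]
        have : primorial z * t + (a + m0 * primorial z) + j = a + (m0 + t) * primorial z + j := by ring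
        rw [this]
        exact e0

/-- large gaps between consecutive primes, from the amplitude theorem -/
theorem largeGaps (hA : AMP) : ∃ c : ℝ, 0 < c ∧ ∃ x₀ : ℝ, ∀ x L : ℝ, x₀ ≤ x →
    L = c * Real.log x * Real.log (Real.log x) ^ 2 * Real.log (Real.log (Real.log (Real.log x))) /
      Real.log (Real.log (Real.log x)) ^ 2 →
    ∀ X : ℕ, ∃ n p q : ℕ, p.Prime ∧ q.Prime ∧ (∀ r : ℕ, p < r → r < q → ¬ r.Prime) ∧
      p ≤ n ∧ (n : ℝ) + L < q ∧ X ≤ n ∧ (n : ℝ) + L ≤ X + x ∧ (q : ℝ) ≤ 2 * X + x ∧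
      ∀ k : ℕ, n < k → (k : ℝ) ≤ n + L → ∃ r : ℕ, r.Prime ∧ (r : ℝ) ≤ x ^ (1 / 16 : ℝ) ∧ r ∣ k := by
  obtain ⟨c, hc, x0, h⟩ := free hA
  refine ⟨c, hc, max x0 200, fun x L hx hL X => ?_⟩
  have hx2 : 200 ≤ x := (le_max_right _ _).trans hx
  have hu1 : 0 ≤ x ^ (1 / 16 : ℝ) := by positivity
  have hu : x ^ (1 / 16 : ℝ) + 3 ≤ x / 8 := by
    have e3 : x ^ (1 / 16 : ℝ) ≤ x ^ (1 / 2 : ℝ) :=
      Real.rpow_le_rpow_of_exponent_le (by linarith) (by norm_num)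
    have e4 : x ^ (1 / 2 : ℝ) * x ^ (1 / 2 : ℝ) = x := by
      rw [← Real.rpow_add (by linarith)]; norm_num
    have e5 : 0 ≤ x ^ (1 / 2 : ℝ) := by positivity
    nlinarith
  obtain ⟨m, hm1, hm2⟩ : ∃ m : ℕ, x ^ (1 / 16 : ℝ) + 2 ≤ m ∧ (m : ℝ) < x ^ (1 / 16 : ℝ) + 2 + 1 :=
    ⟨⌈x ^ (1 / 16 : ℝ) + 2⌉₊, Nat.le_ceil _, Nat.ceil_lt_add_one (by positivity)⟩
  obtain ⟨n, K, hn, hnK, hK, hf⟩ := h x ((le_max_left _ _).trans hx) (X + m)
  rw [← hL] at hK
  push_cast at hnK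
  have hmn : (m : ℝ) ≤ n := by exact_mod_cast (le_trans (Nat.le_add_left m X) hn)
  have hn2 : 2 ≤ n := by
    have : (2 : ℝ) ≤ n := by linarith
    exact_mod_cast this
  obtain ⟨p, q, hp, hq, hpq, hq2, hr, hpn, hqn⟩ := gap_of_free (K := K) hn2 (by
    intro p hp hnp
    by_contra hcon
    push Not at hcon
    obtain ⟨r, hr, hr1, hr2⟩ := hf p hnp hcon
    have e1 := (Nat.prime_dvd_prime_iff_eq hr hp).1 hr2
    rw [e1] at hr1
    have e2 : (n : ℝ) ≤ p := by exact_mod_cast hnp.le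
    linarith)
  refine ⟨n, p, q, hp, hq, hr, hpn, ?_, (Nat.le_add_right X m).trans hn, ?_, ?_, fun k hk1 hk2 => hf k hk1 ?_⟩
  · have e1 : ((n : ℝ) + K) < q := by exact_mod_cast hqn
    linarith
  · linarith
  · have e1 : (q : ℝ) ≤ 2 * ((n : ℝ) + K) := by exact_mod_cast hq2
    linarith
  · have e1 : (k : ℝ) ≤ (n : ℝ) + K := by linarith
    exact_mod_cast e1

end Pool.Agent.H7.LX
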