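import Pool.Agent.H7.LG.ParA
import Pool.Agent.H7.LG.Smo
import Pool.Agent.H7.LG.Sdc

/-!
# Parameters for the frequency theorem: `para` and `parb` of `H7/LG` for a real parameter `H`
-/

set_option autoImplicit false

namespace Pool.Agent.H7.LX

open Pool.Agent.H7.LG

theorem paraF (B c3 K : ℝ) (hB : 4 ≤ B) (hc3 : 0 < c3) (hc3' : c3 ≤ 1 / 2) (hK : 1 ≤ K) :
    ∃ c : ℝ, 0 < c ∧ ∀ H L : ℝ, 36 ≤ H → 1 ≤ L →
      L * l1 L ^ 2 ≤ c * Real.log H * l2 L →
      ∃ w z : ℕ, 2 ≤ w ∧ w ≤ z ∧ z ≤ ⌊L * H⌋₊ ∧ 8 * (z : ℝ) ≤ H ∧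
        B * l1 L * Real.log w ≤ l2 L * Real.log (⌊L * H⌋₊ : ℝ) ∧
        l2 L * Real.log (⌊L * H⌋₊ : ℝ) ≤ 2 * B * l1 L * Real.log w ∧
        K * L ≤ Real.log w ∧ 4 * l2 L ≤ Real.log w ∧
        Real.log ((⌊L * H⌋₊ : ℝ) / z) ≤
          1 + c3 * l2 L * Real.log (⌊L * H⌋₊ : ℝ) / (L * l1 L) ∧
        3 + 2 * (z : ℝ) ≤ H ^ (1 - c * l2 L / (L * l1 L)) := by
  have hB0 : 0 < B := by linarith
  have hK0 : 0 < K := by linarith
  obtain ⟨c, hc0, hc1, hc2, hc4, hc5⟩ : ∃ c : ℝ, 0 < c ∧ c ≤ 1 / 2 ∧ 4 * B * K * c ≤ 1 ∧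
      16 * B * c ≤ 1 ∧ 8 * c ≤ c3 := by
    refine ⟨min (1 / 2) (min (1 / (4 * B * K)) (min (1 / (16 * B)) (c3 / 8))), ?_, min_le_left _ _,
      ?_, ?_, ?_⟩
    · refine lt_min (by norm_num) (lt_min (by positivity) (lt_min (by positivity) (by positivity)))
    · have h1 : min (1 / 2) (min (1 / (4 * B * K)) (min (1 / (16 * B)) (c3 / 8))) ≤
          1 / (4 * B * K) := (min_le_right _ _).trans (min_le_left _ _)
      have h2 := mul_le_mul_of_nonneg_left h1 (show (0 : ℝ) ≤ 4 * B * K by positivity)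
      rwa [mul_one_div_cancel (by positivity)] at h2
    · have h1 : min (1 / 2) (min (1 / (4 * B * K)) (min (1 / (16 * B)) (c3 / 8))) ≤
          1 / (16 * B) := (min_le_right _ _).trans ((min_le_right _ _).trans (min_le_left _ _))
      have h2 := mul_le_mul_of_nonneg_left h1 (show (0 : ℝ) ≤ 16 * B by positivity)
      rwa [mul_one_div_cancel (by positivity)] at h2
    · have h1 : min (1 / 2) (min (1 / (4 * B * K)) (min (1 / (16 * B)) (c3 / 8))) ≤
          c3 / 8 := (min_le_right _ _).trans ((min_le_right _ _).trans (min_le_right _ _))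
      linarith
  refine ⟨c, hc0, ?_⟩
  intro H L hH hL hstar
  exact para_core B c3 K c H L (l1 L) (l2 L) hB hc3 hc3' hK hc0 hc1 hc2 hc4 hc5 hH hL
    (l1_ge hL) (l2_ge hL) (l2_le hL) (exp_l1 hL) hstar

theorem parF (ε : ℝ) (hε : 0 < ε) : ∃ c : ℝ, 0 < c ∧ ∀ H L : ℝ, 36 ≤ H → 1 ≤ L →
      L * l1 L ^ 2 ≤ c * Real.log H * l2 L →
      ∃ w z : ℕ, 2 ≤ w ∧ w ≤ z ∧
        ((sv ⌊L * H⌋₊ w z).card : ℝ) * Real.log z ≤ ε * H * Real.log w ∧
        Real.log (⌊L * H⌋₊ : ℝ) ≤ 2 + 2 * Real.log z ∧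
        3 + 2 * (z : ℝ) ≤ H ^ (1 - c * l2 L / (L * l1 L)) := by
  obtain ⟨C, hC1, hsmo⟩ := smo
  obtain ⟨B, hB⟩ : ∃ B : ℝ, B = max 4 (C + 1 + |Real.log (4 * C / ε)|) := ⟨_, rfl⟩
  have hB4 : 4 ≤ B := by rw [hB]; exact le_max_left _ _
  have hBC : C + 1 + |Real.log (4 * C / ε)| ≤ B := by rw [hB]; exact le_max_right _ _
  have hB0 : 0 < B := by linarith
  obtain ⟨c3, hc3⟩ : ∃ c3 : ℝ, c3 = min (1 / 2) (ε / (32 * B)) := ⟨_, rfl⟩
  have hc3pos : 0 < c3 := by rw [hc3]; positivity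
  have hc3half : c3 ≤ 1 / 2 := by rw [hc3]; exact min_le_left _ _
  have hc3B : c3 ≤ ε / (32 * B) := by rw [hc3]; exact min_le_right _ _
  obtain ⟨K, hK⟩ : ∃ K : ℝ, K = max 1 (max (4 * C / ε) (32 / ε)) := ⟨_, rfl⟩
  have hK1 : 1 ≤ K := by rw [hK]; exact le_max_left _ _
  have hK2 : 4 * C / ε ≤ K := by rw [hK]; exact (le_max_left _ _).trans (le_max_right _ _)
  have hK3 : 32 / ε ≤ K := by rw [hK]; exact (le_max_right _ _).trans (le_max_right _ _)
  obtain ⟨c, hc, hpara⟩ := paraF B c3 K hB4 hc3pos hc3half hK1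
  refine ⟨c, hc, fun H L hH36 hL hcond => ?_⟩
  obtain ⟨w, z, hw2, hwz, hzy, h8, hB1, hB2, hKL, h4, hlz, hfin⟩ := hpara H L hH36 hL hcond
  obtain ⟨y, hy⟩ : ∃ y : ℕ, y = ⌊L * H⌋₊ := ⟨_, rfl⟩
  rw [← hy] at hzy hB1 hB2 hlz ⊢
  have hlast : Real.log (y : ℝ) ≤ 2 + 2 * Real.log z := by
    have hz2 : 2 ≤ z := hw2.trans hwz
    have hzR : (2 : ℝ) ≤ z := by exact_mod_cast hz2
    have hyR : (2 : ℝ) ≤ y := by exact_mod_cast hz2.trans hzy
    have hl1 : 2.75 ≤ l1 L := l1_ge hL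
    have hl2 : 1 ≤ l2 L := l2_ge hL
    have hl21 : l2 L ≤ l1 L := l2_le hL
    have hlY : 0 < Real.log y := Real.log_pos (by linarith)
    rw [Real.log_div (by linarith) (by linarith)] at hlz
    have e1 : c3 * l2 L * Real.log y / (L * l1 L) ≤ 1 / 2 * Real.log y := by
      rw [div_le_iff₀ (by positivity)]
      have e2 : c3 * l2 L ≤ 1 / 2 * (L * l1 L) := by
        apply mul_le_mul hc3half _ (by linarith) (by norm_num)
        nlinarith
      calc c3 * l2 L * Real.log y ≤ (1 / 2 * (L * l1 L)) * Real.log y :=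
            mul_le_mul_of_nonneg_right e2 hlY.le
        _ = _ := by ring
    linarith
  refine ⟨w, z, hw2, hwz, ?_, hlast, hfin⟩
  have hz2 : 2 ≤ z := hw2.trans hwz
  have hy2 : 2 ≤ y := hz2.trans hzy
  have hzR : (2 : ℝ) ≤ z := by exact_mod_cast hz2
  have hyR : (2 : ℝ) ≤ y := by exact_mod_cast hy2
  have hwR : (2 : ℝ) ≤ w := by exact_mod_cast hw2
  have hH : 16 ≤ H := by linarith
  have hyL : (y : ℝ) ≤ L * H := by
    rw [hy]
    exact Nat.floor_le (by positivity)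
  have hl1 : 2.75 ≤ l1 L := l1_ge hL
  have hl2 : 1 ≤ l2 L := l2_ge hL
  have hsm := hsmo y w (l2 L) hy2 hw2 hl2 h4
  have hsd := sdc y w z hz2 hzy
  rw [exp_l2 hL] at hsm
  have hLexp : L ≤ Real.exp (l1 L) := by rw [exp_l1 hL]; linarith
  have hlw : 0 < Real.log w := Real.log_pos (by linarith)
  have hlY : 0 < Real.log y := Real.log_pos (by linarith)
  have hlzY : Real.log z ≤ Real.log y := Real.log_le_log (by linarith) (by exact_mod_cast hzy)
  obtain ⟨ell, hell⟩ : ∃ ell : ℝ, ell = l1 L := ⟨_, rfl⟩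
  obtain ⟨lam, hlam⟩ : ∃ lam : ℝ, lam = l2 L := ⟨_, rfl⟩
  obtain ⟨lw, hlwd⟩ : ∃ lw : ℝ, lw = Real.log w := ⟨_, rfl⟩
  obtain ⟨Y, hYd⟩ : ∃ Y : ℝ, Y = Real.log y := ⟨_, rfl⟩
  rw [← hell] at hB1 hB2 hl1 hsm hLexp hlz
  rw [← hlam] at hB1 hB2 hl2 hsm h4 hlz
  rw [← hlwd] at hB1 hB2 hKL h4 hsm hlw ⊢
  rw [← hYd] at hB1 hB2 hlz hsm hlY hlzY
  have hC0 : 0 < C := by linarith
  have hL0 : 0 < L := by linarith
  have hH0 : 0 < H := by linarith
  have hell0 : 0 < ell := by linarith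
  -- the smooth part
  have hx1 : B * ell ≤ lam * Y / lw := by
    rw [le_div_iff₀ hlw]; exact hB1
  have hE : Real.exp (C * ell - lam * Y / lw) ≤ Real.exp (-((B - C) * ell)) := by
    apply Real.exp_le_exp.2
    nlinarith
  have hCL : C * L * Real.exp (-((B - C) * ell)) ≤ ε / 4 := by
    have g1 : L * Real.exp (-((B - C) * ell)) ≤ Real.exp (-((B - C - 1) * ell)) := by
      calc L * Real.exp (-((B - C) * ell)) ≤ Real.exp ell * Real.exp (-((B - C) * ell)) :=
            mul_le_mul_of_nonneg_right hLexp (Real.exp_pos _).le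
        _ = Real.exp (-((B - C - 1) * ell)) := by rw [← Real.exp_add]; congr 1; ring
    have habs : 0 ≤ |Real.log (4 * C / ε)| := abs_nonneg _
    have g2 : Real.exp (-((B - C - 1) * ell)) ≤ Real.exp (-Real.log (4 * C / ε)) := by
      apply Real.exp_le_exp.2
      have g3 := le_abs_self (Real.log (4 * C / ε))
      nlinarith
    have g4 : Real.exp (-Real.log (4 * C / ε)) = ε / (4 * C) := by
      rw [Real.exp_neg, Real.exp_log (by positivity), inv_div]
    calc C * L * Real.exp (-((B - C) * ell)) = C * (L * Real.exp (-((B - C) * ell))) := by ring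
      _ ≤ C * (ε / (4 * C)) := mul_le_mul_of_nonneg_left ((g1.trans g2).trans (le_of_eq g4)) hC0.le
      _ = ε / 4 := by field_simp
  have hKa : C * L ≤ ε / 4 * lw := by
    have g1 : 4 * C / ε * L ≤ lw := (mul_le_mul_of_nonneg_right hK2 hL0.le).trans hKL
    have g2 : ε / 4 * (4 * C / ε * L) ≤ ε / 4 * lw := mul_le_mul_of_nonneg_left g1 (by positivity)
    have g3 : ε / 4 * (4 * C / ε * L) = C * L := by field_simp
    linarith
  have hKb : 8 * L ≤ ε / 4 * lw := by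
    have g1 : 32 / ε * L ≤ lw := (mul_le_mul_of_nonneg_right hK3 hL0.le).trans hKL
    have g2 : ε / 4 * (32 / ε * L) ≤ ε / 4 * lw := mul_le_mul_of_nonneg_left g1 (by positivity)
    have g3 : ε / 4 * (32 / ε * L) = 8 * L := by field_simp; ring
    linarith
  have hpart1 : ((sm y w).card : ℝ) * Real.log z ≤ ε / 2 * H * lw := by
    calc ((sm y w).card : ℝ) * Real.log z ≤ ((sm y w).card : ℝ) * Y :=
          mul_le_mul_of_nonneg_left hlzY (Nat.cast_nonneg _)
      _ ≤ C * y * (Real.exp (C * ell - lam * Y / lw) * lw + 1) := hsm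
      _ ≤ C * (L * H) * (Real.exp (-((B - C) * ell)) * lw + 1) := by
          apply mul_le_mul
          · exact mul_le_mul_of_nonneg_left hyL hC0.le
          · have := mul_le_mul_of_nonneg_right hE hlw.le
            linarith
          · positivity
          · positivity
      _ = (C * L * Real.exp (-((B - C) * ell))) * (H * lw) + (C * L) * H := by ring
      _ ≤ ε / 4 * (H * lw) + (ε / 4 * lw) * H :=
          add_le_add (mul_le_mul_of_nonneg_right hCL (by positivity))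
            (mul_le_mul_of_nonneg_right hKa hH0.le)
      _ = ε / 2 * H * lw := by ring
  have hpart2 : 4 * (y : ℝ) * (1 + Real.log ((y : ℝ) / z)) ≤ ε / 2 * H * lw := by
    have g0 : 0 ≤ c3 * lam * Y / (L * ell) := by positivity
    have g1 : 1 + Real.log ((y : ℝ) / z) ≤ 2 + c3 * lam * Y / (L * ell) := by linarith
    have g2 : lam * Y / ell ≤ 2 * B * lw := by
      rw [div_le_iff₀ hell0]; linarith
    have g3 : 8 * B * c3 ≤ ε / 4 := by
      have : 8 * B * c3 ≤ 8 * B * (ε / (32 * B)) := mul_le_mul_of_nonneg_left hc3B (by positivity)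
      have e : 8 * B * (ε / (32 * B)) = ε / 4 := by field_simp; ring
      linarith
    calc 4 * (y : ℝ) * (1 + Real.log ((y : ℝ) / z)) ≤ 4 * (y : ℝ) * (2 + c3 * lam * Y / (L * ell)) :=
          mul_le_mul_of_nonneg_left g1 (by positivity)
      _ ≤ 4 * (L * H) * (2 + c3 * lam * Y / (L * ell)) :=
          mul_le_mul_of_nonneg_right (by linarith) (by positivity)
      _ = (8 * L) * H + 4 * c3 * H * (lam * Y / ell) := by field_simp; ring
      _ ≤ (ε / 4 * lw) * H + 4 * c3 * H * (2 * B * lw) :=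
          add_le_add (mul_le_mul_of_nonneg_right hKb hH0.le)
            (mul_le_mul_of_nonneg_left g2 (by positivity))
      _ = (ε / 4 * lw) * H + (8 * B * c3) * (H * lw) := by ring
      _ ≤ (ε / 4 * lw) * H + ε / 4 * (H * lw) := by
          have := mul_le_mul_of_nonneg_right g3 (by positivity : 0 ≤ H * lw)
          linarith
      _ = ε / 2 * H * lw := by ring
  linarith

end Pool.Agent.H7.LX
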