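import Pool.Agent.H82.LX.Crv
import Pool.Agent.H82.LX.Amp
import Pool.Agent.H69.PG.Fin

/-!
# Uniform positive proportion (a fast version of helper82's `fin_uni`, same proof)
-/

set_option autoImplicit false

open Finset EG

namespace Pool.Agent.H7.LX

open H69PG H82LX

theorem uni_mert : ∃ D : ℝ, 1 ≤ D ∧ ∀ z : ℕ, 2 ≤ z →
    (Nat.totient (primorial z) : ℝ) / (primorial z : ℝ) ≤ D / Real.log z := by
  obtain ⟨D, hD, h⟩ := vv_mu
  refine ⟨D, hD, fun z hz => ?_⟩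
  have h1 := h z 2 2 hz le_rfl le_rfl
  have h2 : VV 2 2 1 = 1 := by
    unfold VV PK
    simp
  rw [h2, mul_one] at h1
  refine h1.trans (le_of_eq ?_)
  have hl : Real.log ((2 : ℕ) : ℝ) ≠ 0 := by
    have : 0 < Real.log ((2 : ℕ) : ℝ) := Real.log_pos (by norm_num)
    exact this.ne'
  have hz0 : Real.log (z : ℝ) ≠ 0 := by
    have : 0 < Real.log (z : ℝ) := Real.log_pos (by exact_mod_cast (by omega : 1 < z))
    exact this.ne'
  field_simp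

/-- the number of scales -/
theorem uni_par {D c0 C0 : ℝ} (hD : 1 ≤ D) (hc0 : 0 < c0) (hC0 : 1 ≤ C0) (m0 : ℕ) :
    ∃ C2 : ℝ, 1 ≤ C2 ∧ ∀ lam : ℝ, 1 ≤ lam → ∃ m : ℕ, m0 ≤ m ∧ 4 * D * lam ≤ c0 * m ∧ C0 * m ≤ C2 * lam := by
  have h0 : 0 ≤ 4 * D / c0 := by positivity
  have h00 : (0 : ℝ) ≤ m0 := Nat.cast_nonneg _
  refine ⟨C0 * (4 * D / c0 + 1 + m0), ?_, ?_⟩
  · calc (1 : ℝ) = 1 * 1 := by norm_num
      _ ≤ C0 * (4 * D / c0 + 1 + m0) := mul_le_mul hC0 (by linarith) (by norm_num) (by linarith)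
  · intro lam hlam
    refine ⟨⌈4 * D * lam / c0⌉₊ + m0, by omega, ?_, ?_⟩
    · have h1 := Nat.le_ceil (4 * D * lam / c0)
      push_cast
      have h3 : c0 * (4 * D * lam / c0) = 4 * D * lam := by field_simp
      calc 4 * D * lam = c0 * (4 * D * lam / c0) := h3.symm
        _ ≤ c0 * ((⌈4 * D * lam / c0⌉₊ : ℝ) + m0) := mul_le_mul_of_nonneg_left (by linarith) hc0.le
    · have h1 := Nat.ceil_lt_add_one (show 0 ≤ 4 * D * lam / c0 by positivity)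
      push_cast
      have h3 : (⌈4 * D * lam / c0⌉₊ : ℝ) + m0 ≤ (4 * D / c0 + 1 + m0) * lam := by
        have e : (4 * D / c0 + 1 + m0) * lam = 4 * D * lam / c0 + lam + m0 * lam := by ring
        have e1 : (m0 : ℝ) ≤ m0 * lam := le_mul_of_one_le_right h00 hlam
        rw [e]
        linarith
      calc C0 * ((⌈4 * D * lam / c0⌉₊ : ℝ) + m0) ≤ C0 * ((4 * D / c0 + 1 + m0) * lam) :=
            mul_le_mul_of_nonneg_left h3 (by linarith)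
        _ = _ := by ring

theorem uni_half {H : ℝ} (hH : 80000 ≤ H) : H ^ (1 / 2 : ℝ) * 200 ≤ H ∧ 280 ≤ H ^ (1 / 2 : ℝ) ∧
    H ^ (1 / 2 : ℝ) * H ^ (1 / 2 : ℝ) = H := by
  have hH0 : 0 < H := by linarith
  have hss : H ^ (1 / 2 : ℝ) * H ^ (1 / 2 : ℝ) = H := by
    rw [← Real.rpow_add hH0]
    norm_num
  have hs0 : 0 < H ^ (1 / 2 : ℝ) := by positivity
  obtain ⟨s, hs⟩ : ∃ s : ℝ, s = H ^ (1 / 2 : ℝ) := ⟨_, rfl⟩
  rw [← hs] at hss hs0 ⊢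
  have h1 : 280 ≤ s := by
    by_contra hcon
    push Not at hcon
    have : s * s < 280 * 280 := mul_lt_mul'' hcon hcon hs0.le hs0.le
    linarith
  refine ⟨?_, h1, hss⟩
  have h2 : s * 200 ≤ s * s := mul_le_mul_of_nonneg_left (by linarith) hs0.le
  linarith

/-- eventually -/
theorem uni_ev {r1 C2 : ℝ} (hr1 : 0 < r1) (hC2 : 1 ≤ C2) :
    ∃ x0 : ℝ, ∀ x : ℝ, x0 ≤ x →
      3 ≤ x ∧ 2 + x ^ (1 / 50 : ℝ) + Real.log x ^ 2 ≤ x ∧
      Real.log x / 100 ≤ x ^ r1 ∧ x ^ (1 / 50 : ℝ) ≤ x / 2 ∧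
      x ^ (1 / 2 : ℝ) + 1 ≤ Real.exp (-(Real.log x ^ (1 / 2 : ℝ))) / 8 * x ∧
      80000 ≤ Real.log x ∧ 1 / (2 * C2) * Real.log (Real.log x) ≤ Real.log x / 80000 := by
  have e2 := Filter.eventually_ge_atTop (Real.exp 80000)
  have e3 := (isLittleO_log_rpow_atTop (r := 1 / 4) (by norm_num)).bound
    (show (0 : ℝ) < 1 by norm_num)
  have e4 := (isLittleO_log_rpow_atTop hr1).bound (show (0 : ℝ) < 1 by norm_num)
  have e5 := (tendsto_rpow_atTop (show (0 : ℝ) < 1 / 2 by norm_num)).eventually_ge_atTop 64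
  have e6 := (Real.isLittleO_log_id_atTop.comp_tendsto Real.tendsto_log_atTop).bound
    (show (0 : ℝ) < 1 / 80000 by norm_num)
  refine Filter.eventually_atTop.1 ?_
  filter_upwards [e2, e3, e4, e5, e6] with x a2 a3 a4 a5 a6
  have hx0 : 0 < x := (Real.exp_pos _).trans_le a2
  have hH : 80000 ≤ Real.log x := (Real.le_log_iff_exp_le hx0).2 a2
  obtain ⟨H, hHd⟩ : ∃ H : ℝ, H = Real.log x := ⟨_, rfl⟩
  have hxe : x = Real.exp H := by rw [hHd, Real.exp_log hx0]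
  simp only [Function.comp_apply, id_eq, Real.norm_eq_abs] at a6
  rw [abs_of_pos (show 0 < Real.log x by linarith)] at a6
  rw [← hHd] at a3 a4 a6 hH ⊢
  have hx3 : 3 ≤ x := by
    rw [hxe]
    have := Real.add_one_le_exp H
    linarith
  have hx1 : 1 ≤ x := by linarith
  have hsq : x ^ (1 / 2 : ℝ) * x ^ (1 / 2 : ℝ) = x := by
    rw [← Real.rpow_add hx0]
    norm_num
  have h50 : x ^ (1 / 50 : ℝ) ≤ x ^ (1 / 2 : ℝ) := Real.rpow_le_rpow_of_exponent_le hx1 (by norm_num)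
  have hlog4 : H ≤ x ^ (1 / 4 : ℝ) := by
    have := (le_abs_self H).trans a3
    rwa [one_mul, Real.norm_eq_abs, abs_of_pos (Real.rpow_pos_of_pos hx0 _)] at this
  have hlog2 : H ^ 2 ≤ x ^ (1 / 2 : ℝ) := by
    have e : x ^ (1 / 2 : ℝ) = (x ^ (1 / 4 : ℝ)) ^ 2 := by
      rw [← Real.rpow_natCast, ← Real.rpow_mul hx0.le]
      norm_num
    rw [e]
    exact pow_le_pow_left₀ (by linarith) hlog4 2
  have a4' : H ≤ x ^ r1 := by
    have := (le_abs_self H).trans a4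
    rwa [one_mul, Real.norm_eq_abs, abs_of_pos (Real.rpow_pos_of_pos hx0 r1)] at this
  obtain ⟨y, hy⟩ : ∃ y : ℝ, y = x ^ (1 / 2 : ℝ) := ⟨_, rfl⟩
  rw [← hy] at a5 hsq h50 hlog2 ⊢
  have hyx : 64 * y ≤ x := by
    have h1 : 64 * y ≤ y * y := mul_le_mul_of_nonneg_right a5 (by linarith)
    linarith
  refine ⟨hx3, by linarith, by linarith, by linarith, ?_, hH, ?_⟩
  · obtain ⟨-, hs4, hss⟩ := uni_half hH
    obtain ⟨s, hs⟩ : ∃ s : ℝ, s = H ^ (1 / 2 : ℝ) := ⟨_, rfl⟩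
    rw [← hs] at hs4 hss ⊢
    have hye : y = Real.exp (H / 2) := by
      rw [hy, Real.rpow_def_of_pos hx0]
      congr 1
      rw [← hHd]
      ring
    have h1 : Real.exp (-s) / 8 * x = Real.exp (H - s) / 8 := by
      rw [hxe, div_mul_eq_mul_div, ← Real.exp_add]
      congr 2
      ring
    rw [h1]
    have h20 : 280 * s ≤ s * s := mul_le_mul_of_nonneg_right hs4 (by linarith)
    have h2 : H / 2 + 3 ≤ H - s := by linarith
    have h3 : Real.exp (H / 2 + 3) ≤ Real.exp (H - s) := Real.exp_le_exp.2 h2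
    rw [Real.exp_add, ← hye] at h3
    have h4 : 16 ≤ Real.exp 3 := by
      have h5 : (Real.exp 1) ^ 3 = Real.exp 3 := by rw [← Real.exp_nat_mul]; norm_num
      rw [← h5]
      have := Real.exp_one_gt_d9
      calc (16 : ℝ) ≤ 2.7 ^ 3 := by norm_num
        _ ≤ (Real.exp 1) ^ 3 := pow_le_pow_left₀ (by norm_num) (by linarith) 3
    have h6 : y * 16 ≤ y * Real.exp 3 := mul_le_mul_of_nonneg_left h4 (by linarith)
    linarith
  · have h1 : Real.log H ≤ 1 / 80000 * H := (le_abs_self _).trans a6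
    have h2 : 0 ≤ Real.log H := Real.log_nonneg (by linarith)
    have h3 : 1 / (2 * C2) ≤ 1 := by
      rw [div_le_one (by positivity)]
      linarith
    calc 1 / (2 * C2) * Real.log H ≤ 1 * Real.log H := mul_le_mul_of_nonneg_right h3 h2
      _ ≤ H / 80000 := by linarith

/-- sizes of `K` and `z0` -/
theorem uni_size {H lam : ℝ} (hH : 80000 ≤ H) (hlam : 1 ≤ lam) (hl : lam ≤ H / 80000) {K z0 : ℕ}
    (hK : K = ⌊lam * H⌋₊) (hz : z0 = ⌊H / 100⌋₊) :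
    0 < K ∧ (K : ℝ) ≤ lam * H ∧ H / 2 ≤ (K : ℝ) ∧ (K : ℝ) ≤ H ^ 2 / 80000 ∧ z0 ≤ K ∧ 2 ≤ z0 ∧
    0 < Real.log z0 ∧ Real.log K ≤ 2 * Real.log z0 ∧ 100 * (z0 : ℝ) ≤ H ∧ (z0 : ℝ) ≤ H / 100 := by
  have hH0 : 0 < H := by linarith
  have h1 : H ≤ lam * H := le_mul_of_one_le_left hH0.le hlam
  have hK1 : (K : ℝ) ≤ lam * H := by rw [hK]; exact Nat.floor_le (by linarith)
  have hK2 : lam * H < K + 1 := by rw [hK]; exact Nat.lt_floor_add_one _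
  have hz1 : (z0 : ℝ) ≤ H / 100 := by rw [hz]; exact Nat.floor_le (by linarith)
  have hz2 : H / 100 < z0 + 1 := by rw [hz]; exact Nat.lt_floor_add_one _
  have hK0 : (0 : ℝ) < K := by linarith
  have hK0' : 0 < K := by exact_mod_cast hK0
  have hKH : (K : ℝ) ≤ H ^ 2 / 80000 := by
    have : lam * H ≤ H / 80000 * H := mul_le_mul_of_nonneg_right hl hH0.le
    have e : H / 80000 * H = H ^ 2 / 80000 := by ring
    linarith
  have hz0 : z0 ≤ K := by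
    have : (z0 : ℝ) ≤ K := by linarith
    exact_mod_cast this
  have hz02 : 2 ≤ z0 := by
    have : (2 : ℝ) ≤ z0 := by linarith
    exact_mod_cast this
  refine ⟨hK0', hK1, by linarith, hKH, hz0, hz02, Real.log_pos (by exact_mod_cast (by omega : 1 < z0)), ?_,
    by linarith, hz1⟩
  rw [show 2 * Real.log (z0 : ℝ) = Real.log ((z0 : ℝ) ^ 2) by rw [Real.log_pow]; norm_num]
  apply Real.log_le_log hK0
  calc (K : ℝ) ≤ H ^ 2 / 80000 := hKH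
    _ ≤ (H / 200) ^ 2 := by
        have e : (H / 200) ^ 2 = H ^ 2 / 40000 := by ring
        have : 0 ≤ H ^ 2 := by positivity
        rw [e]
        linarith
    _ ≤ (z0 : ℝ) ^ 2 := pow_le_pow_left₀ (by linarith) (by linarith) 2

/-- sizes of `T` -/
theorem uni_T {x : ℝ} (hx : 3 ≤ x) (hH : 80000 ≤ Real.log x) {Q0 T : ℕ} (hQ : 0 < Q0)
    (hQx : (Q0 : ℝ) ≤ x ^ (1 / 50 : ℝ)) (hT : T = ⌊x / (Q0 : ℝ)⌋₊) :
    x ^ (7 / 10 : ℝ) ≤ T ∧ (Q0 : ℝ) * T ≤ x ∧ x - Q0 ≤ (Q0 : ℝ) * T := by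
  have hx0 : 0 < x := by linarith
  have hQr : (0 : ℝ) < Q0 := by exact_mod_cast hQ
  have h1 : x / (Q0 : ℝ) < T + 1 := by rw [hT]; exact Nat.lt_floor_add_one _
  have h2 : (T : ℝ) ≤ x / (Q0 : ℝ) := by rw [hT]; exact Nat.floor_le (by positivity)
  refine ⟨?_, ?_, ?_⟩
  · have h4 : x ^ (49 / 50 : ℝ) ≤ x / Q0 := by
      rw [le_div_iff₀ hQr]
      calc x ^ (49 / 50 : ℝ) * (Q0 : ℝ) ≤ x ^ (49 / 50 : ℝ) * x ^ (1 / 50 : ℝ) :=
            mul_le_mul_of_nonneg_left hQx (Real.rpow_nonneg hx0.le _)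
        _ = x := by rw [← Real.rpow_add hx0]; norm_num
    have h5 : x ^ (49 / 50 : ℝ) = x ^ (7 / 10 : ℝ) * x ^ (7 / 25 : ℝ) := by
      rw [← Real.rpow_add hx0]
      norm_num
    have h6 : 2 ≤ x ^ (7 / 25 : ℝ) := by
      rw [Real.rpow_def_of_pos hx0]
      have h7 := Real.add_one_le_exp (Real.log x * (7 / 25))
      linarith
    have h9 : 1 ≤ x ^ (7 / 10 : ℝ) := Real.one_le_rpow (by linarith) (by norm_num)
    have h10 : x ^ (7 / 10 : ℝ) * 2 ≤ x ^ (7 / 10 : ℝ) * x ^ (7 / 25 : ℝ) :=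
      mul_le_mul_of_nonneg_left h6 (by linarith)
    linarith
  · rw [le_div_iff₀ hQr] at h2
    linarith
  · rw [div_lt_iff₀ hQr] at h1
    have e : ((T : ℝ) + 1) * Q0 = Q0 * T + Q0 := by ring
    linarith

/-- the size of the linear forms -/
theorem uni_A {x A : ℝ} (hx : 3 ≤ x) (hsz : 2 + x ^ (1 / 50 : ℝ) + Real.log x ^ 2 ≤ x) {X Q0 b i t T K : ℕ}
    (hX : (X : ℝ) ≤ x ^ A) (hQx : (Q0 : ℝ) ≤ x ^ (1 / 50 : ℝ)) (hb : b < Q0) (hi : i ≤ K)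
    (hK : (K : ℝ) ≤ Real.log x ^ 2 / 80000) (ht : t < T) (hT : (Q0 : ℝ) * T ≤ x) :
    ((Q0 * t + (X + 1 + b + i) : ℕ) : ℝ) ≤ x ^ (⌈A⌉₊ + 2) := by
  have h1x : 1 ≤ x := by linarith
  have hiK : (i : ℝ) ≤ K := by exact_mod_cast hi
  have hbQ : (b : ℝ) ≤ Q0 := by exact_mod_cast hb.le
  have htT : (t : ℝ) ≤ T := by exact_mod_cast ht.le
  have hQt : (Q0 : ℝ) * t ≤ x := (mul_le_mul_of_nonneg_left htT (Nat.cast_nonneg _)).trans hT
  have hXA : (X : ℝ) ≤ x ^ (⌈A⌉₊ : ℕ) := by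
    refine hX.trans ?_
    rw [← Real.rpow_natCast]
    exact Real.rpow_le_rpow_of_exponent_le h1x (Nat.le_ceil A)
  have hA1 : x ^ (⌈A⌉₊ + 2) = x ^ (⌈A⌉₊ : ℕ) * x ^ 2 := pow_add _ _ _
  have hA2 : 1 ≤ x ^ (⌈A⌉₊ : ℕ) := one_le_pow₀ h1x
  have hH2 : 0 ≤ Real.log x ^ 2 := by positivity
  obtain ⟨a, ha⟩ : ∃ a : ℝ, a = x ^ (⌈A⌉₊ : ℕ) := ⟨_, rfl⟩
  rw [← ha] at hA1 hA2 hXA
  rw [hA1]
  have e3 : a + 2 * x ≤ a * x ^ 2 := by
    have h1 : 0 ≤ x ^ 2 - 1 := by nlinarith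
    have h2 := mul_le_mul_of_nonneg_right hA2 h1
    nlinarith
  push_cast
  linarith

/-- the last comparison -/
theorem uni_fin {C2 lam E c1 x : ℝ} (hC2 : 1 ≤ C2) (hlam : 1 ≤ lam) (hE : E = Real.exp (C2 * lam))
    (hc1 : c1 = Real.exp (-E)) (hx0 : 0 < x) :
    x * Real.exp (-Real.exp ((C2 + 2) * lam)) ≤ c1 / 8 * x := by
  have hc10 : 0 < c1 := by rw [hc1]; exact Real.exp_pos _
  have hC20 : 0 ≤ C2 * lam := by positivity
  have hE2 : 1 ≤ E := by rw [hE]; exact Real.one_le_exp hC20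
  have h1 : Real.exp ((C2 + 2) * lam) = E * Real.exp (2 * lam) := by
    rw [hE, ← Real.exp_add]
    congr 1
    ring
  have h2 : 7 ≤ Real.exp (2 * lam) := by
    have h5 : (Real.exp 1) ^ 2 = Real.exp 2 := by rw [← Real.exp_nat_mul]; norm_num
    have h6 : (7 : ℝ) ≤ (Real.exp 1) ^ 2 := by
      have := Real.exp_one_gt_d9
      calc (7 : ℝ) ≤ 2.7 ^ 2 := by norm_num
        _ ≤ (Real.exp 1) ^ 2 := pow_le_pow_left₀ (by norm_num) (by linarith) 2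
    rw [h5] at h6
    exact h6.trans (Real.exp_le_exp.2 (by linarith))
  have h3 : E + 3 ≤ Real.exp ((C2 + 2) * lam) := by
    rw [h1]
    have h4 : E * 7 ≤ E * Real.exp (2 * lam) := mul_le_mul_of_nonneg_left h2 (by linarith)
    linarith
  have h4 : (8 : ℝ) ≤ Real.exp 3 := by
    have h5 : (Real.exp 1) ^ 3 = Real.exp 3 := by rw [← Real.exp_nat_mul]; norm_num
    rw [← h5]
    have := Real.exp_one_gt_d9
    calc (8 : ℝ) ≤ 2 ^ 3 := by norm_num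
      _ ≤ (Real.exp 1) ^ 3 := pow_le_pow_left₀ (by norm_num) (by linarith) 3
  have h7 : Real.exp (-Real.exp ((C2 + 2) * lam)) ≤ c1 / 8 := by
    calc Real.exp (-Real.exp ((C2 + 2) * lam)) ≤ Real.exp (-E + -3) := Real.exp_le_exp.2 (by linarith)
      _ = c1 * (Real.exp 3)⁻¹ := by rw [Real.exp_add, ← hc1, Real.exp_neg 3]
      _ ≤ c1 * (8 : ℝ)⁻¹ := mul_le_mul_of_nonneg_left (inv_anti₀ (by norm_num) h4) hc10.le
      _ = c1 / 8 := by ring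
  calc x * Real.exp (-Real.exp ((C2 + 2) * lam)) ≤ x * (c1 / 8) := mul_le_mul_of_nonneg_left h7 hx0.le
    _ = c1 / 8 * x := by ring

/-- the good starting points contain the constructed ones -/
theorem uni_key {x lam r r1 : ℝ} (h1x : 1 ≤ x) (hr1r : r1 ≤ r) (hr1h : r1 ≤ 1 / 2) {X Q0 T b t n K z0 : ℕ}
    (hQ0 : Q0 = primorial z0) (hzr : (z0 : ℝ) ≤ x ^ r1) (hK : K = ⌊lam * Real.log x⌋₊)
    (hn : X + 1 + b + Q0 * t = n) (hb : b < Q0) (ht1 : t < T) (hQT : Q0 * T ≤ ⌊x⌋₊)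
    (ht2 : ∀ k ∈ (Icc 1 K).filter (fun k => Nat.Coprime (X + 1 + b + k) Q0), ∃ p : ℕ, p.Prime ∧
      (p : ℝ) ≤ x ^ r1 ∧ p ∣ Q0 * t + (X + 1 + b + k)) (hnx : ¬ n < ⌊x ^ (1 / 2 : ℝ)⌋₊ + 1) :
    n ∈ Ioc X (X + ⌊x⌋₊) ∧ ∀ k : ℕ, n < k → (k : ℝ) ≤ n + lam * Real.log x →
      ¬ k.Prime ∧ (k.minFac : ℝ) ≤ x ^ r := by
  have key : ∀ k : ℕ, n < k → (k : ℝ) ≤ n + lam * Real.log x →
      ∃ p : ℕ, p.Prime ∧ (p : ℝ) ≤ x ^ r1 ∧ p ∣ k := by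
    intro k hnk hk
    obtain ⟨j, rfl⟩ := Nat.exists_eq_add_of_lt hnk
    have hj : ((j + 1 : ℕ) : ℝ) ≤ lam * Real.log x := by
      push_cast at hk ⊢
      linarith
    have hjK : j + 1 ≤ K := by rw [hK]; exact Nat.le_floor hj
    have ek : Q0 * t + (X + 1 + b + (j + 1)) = n + j + 1 := by omega
    by_cases hco : Nat.Coprime (X + 1 + b + (j + 1)) Q0
    · obtain ⟨p, hp, hpr, hd⟩ := ht2 (j + 1) (Finset.mem_filter.2 ⟨Finset.mem_Icc.2 ⟨by omega, hjK⟩, hco⟩)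
      rw [ek] at hd
      exact ⟨p, hp, hpr, hd⟩
    · obtain ⟨p, hp, hd1, hd2⟩ := Nat.Prime.not_coprime_iff_dvd.1 hco
      refine ⟨p, hp, ?_, ?_⟩
      · have : p ≤ z0 := hp.dvd_primorial_iff.1 (by rw [← hQ0]; exact hd2)
        have h' : (p : ℝ) ≤ z0 := by exact_mod_cast this
        exact h'.trans hzr
      · rw [← ek]
        exact dvd_add (hd2.mul_right t) hd1
  refine ⟨?_, ?_⟩
  · rw [Finset.mem_Ioc]
    have h1 : Q0 * (t + 1) ≤ Q0 * T := Nat.mul_le_mul_left _ ht1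
    have h2 : Q0 * (t + 1) = Q0 * t + Q0 := by ring
    omega
  · intro k hnk hk
    obtain ⟨p, hp, hpr, hd⟩ := key k hnk hk
    refine ⟨?_, ?_⟩
    · intro hkp
      have hpk : p = k := (Nat.prime_dvd_prime_iff_eq hp hkp).1 hd
      have h1 : (k : ℝ) ≤ x ^ (1 / 2 : ℝ) := by
        rw [← hpk]
        exact hpr.trans (Real.rpow_le_rpow_of_exponent_le h1x hr1h)
      have h2 : k ≤ ⌊x ^ (1 / 2 : ℝ)⌋₊ := Nat.le_floor h1
      omega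
    · have h1 : k.minFac ≤ p := Nat.minFac_le_of_dvd hp.two_le hd
      have h2 : (k.minFac : ℝ) ≤ p := by exact_mod_cast h1
      exact h2.trans (hpr.trans (Real.rpow_le_rpow_of_exponent_le h1x hr1r))

open Classical in
/-- one class -/
theorem uni_b {A r1 c0 C0 D : ℝ} {m0 : ℕ} (hD : 0 ≤ D)
    (hcore : ∀ m : ℕ, m0 ≤ m → ∀ x : ℝ, 1 ≤ x → Real.exp (C0 * m) ≤ Real.log x →
      ∀ (ι : Type) [Fintype ι] [DecidableEq ι] (K Q0 T : ℕ) (cc : ι → ℕ),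
      Real.exp (C0 * m) ≤ K → (K : ℝ) ≤ Real.log x ^ (⌈A⌉₊ + 2) → Fm K Q0 cc →
      (Fintype.card ι : ℝ) * Real.log K ≤ c0 * m * Real.log x →
      x ^ (7 / 10 : ℝ) ≤ T → (∀ i, ∀ t < T, ((Q0 * t + cc i : ℕ) : ℝ) ≤ x ^ (⌈A⌉₊ + 2)) →
      (T : ℝ) ≤ Real.exp (Real.exp (C0 * m)) *
        (((range T).filter (fun t => ∀ i, ∃ p : ℕ, p.Prime ∧ (p : ℝ) ≤ x ^ r1 ∧ p ∣ Q0 * t + cc i)).card : ℝ))
    {x lam : ℝ} (hx : 3 ≤ x) (hsz : 2 + x ^ (1 / 50 : ℝ) + Real.log x ^ 2 ≤ x) (hH : 80000 ≤ Real.log x)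
    {m X K z0 Q0 T b : ℕ} (hm : m0 ≤ m) (hm1 : 4 * D * lam ≤ c0 * m)
    (hEH : Real.exp (C0 * m) ≤ Real.log x ^ (1 / 2 : ℝ)) (hlam : 1 ≤ lam) (hlamH : lam ≤ Real.log x / 80000)
    (hK : K = ⌊lam * Real.log x⌋₊) (hz0 : z0 = ⌊Real.log x / 100⌋₊) (hQ0 : Q0 = primorial z0)
    (hT : T = ⌊x / (Q0 : ℝ)⌋₊) (hX : (X : ℝ) ≤ x ^ A) (hφ : (Nat.totient Q0 : ℝ) / (Q0 : ℝ) ≤ D / Real.log z0)
    (hb : b < Q0) (hbs : (((Icc 1 K).filter (fun k => Nat.Coprime (X + 1 + b + k) Q0)).card : ℝ) ≤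
      2 * (K : ℝ) * ((Nat.totient Q0 : ℝ) / (Q0 : ℝ))) :
    (T : ℝ) ≤ Real.exp (Real.exp (C0 * m)) * (((range T).filter (fun t =>
      ∀ k ∈ (Icc 1 K).filter (fun k => Nat.Coprime (X + 1 + b + k) Q0), ∃ p : ℕ, p.Prime ∧
        (p : ℝ) ≤ x ^ r1 ∧ p ∣ Q0 * t + (X + 1 + b + k))).card : ℝ) := by
  obtain ⟨k1, k2, k3, k4, k5, k6, k7, k8, k9, k10⟩ := uni_size hH hlam hlamH hK hz0
  have h1x : 1 ≤ x := by linarith
  have hQx : (Q0 : ℝ) ≤ x ^ (1 / 50 : ℝ) := by rw [hQ0]; exact Amp_prim h1x k9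
  have hQ : 0 < Q0 := by rw [hQ0]; exact primorial_pos z0
  obtain ⟨t1, t2, t3⟩ := uni_T hx hH hQ hQx hT
  obtain ⟨s1, s2, s3⟩ := uni_half hH
  have hH0 : 0 < Real.log x := by linarith
  obtain ⟨S, hS⟩ : ∃ S : Finset ℕ, S = (Icc 1 K).filter (fun k => Nat.Coprime (X + 1 + b + k) Q0) := ⟨_, rfl⟩
  rw [← hS] at hbs ⊢
  have hSs : S ⊆ Icc 1 K := by rw [hS]; exact Finset.filter_subset _ _
  have hFm : Fm K Q0 (fun k : {k // k ∈ S} => X + 1 + b + k.1) := by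
    rw [hQ0]
    exact Fin_Fm X b K z0 k5 S hSs
  have hKup : (K : ℝ) ≤ Real.log x ^ (⌈A⌉₊ + 2) := by
    have e1 : Real.log x ^ 2 ≤ Real.log x ^ (⌈A⌉₊ + 2) := pow_le_pow_right₀ (by linarith) (by omega)
    have e2 : 0 ≤ Real.log x ^ 2 := by positivity
    linarith
  have hcd : (Fintype.card {k // k ∈ S} : ℝ) * Real.log K ≤ c0 * m * Real.log x := by
    rw [Fintype.card_coe]
    have h2 : 0 ≤ (Nat.totient Q0 : ℝ) / (Q0 : ℝ) := by positivity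
    have h3 : 0 ≤ Real.log (K : ℝ) := Real.log_natCast_nonneg K
    calc (S.card : ℝ) * Real.log K
          ≤ (2 * (lam * Real.log x) * (D / Real.log z0)) * (2 * Real.log z0) := by
          refine mul_le_mul (hbs.trans ?_) k8 h3 (by positivity)
          exact mul_le_mul (by linarith) hφ h2 (by positivity)
      _ = (4 * D * lam) * Real.log x := by field_simp; ring
      _ ≤ (c0 * m) * Real.log x := mul_le_mul_of_nonneg_right hm1 hH0.le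
  have h1 := hcore m hm x h1x (by linarith) {k // k ∈ S} K Q0 T (fun k => X + 1 + b + k.1) (by linarith) hKup
    hFm hcd t1 (by
    intro i t ht
    have hi := Finset.mem_Icc.1 (hSs i.2)
    exact uni_A hx hsz hX hQx hb hi.2 k4 ht t2)
  refine h1.trans (mul_le_mul_of_nonneg_left ?_ (Real.exp_pos _).le)
  norm_cast
  refine Finset.card_le_card ?_
  intro t ht
  rw [Finset.mem_filter] at ht ⊢
  exact ⟨ht.1, fun k hk => ht.2 ⟨k, hk⟩⟩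

open Classical in
/-- uniform positive proportion -/
theorem uni {r A : ℝ} (hr : 0 < r) :
    ∃ c : ℝ, 0 < c ∧ ∃ C x0 : ℝ, ∀ x : ℝ, x0 ≤ x → ∀ X : ℕ, (X : ℝ) ≤ x ^ A →
      ∀ lam : ℝ, 1 ≤ lam → lam ≤ c * Real.log (Real.log x) →
      x * Real.exp (-Real.exp (C * lam)) ≤ (((Ioc X (X + ⌊x⌋₊)).filter (fun n : ℕ => ∀ k : ℕ, n < k →
        (k : ℝ) ≤ n + lam * Real.log x → ¬ k.Prime ∧ (k.minFac : ℝ) ≤ x ^ r)).card : ℝ) := by
  obtain ⟨r1, hr1def⟩ : ∃ r1 : ℝ, r1 = min r (1 / 16) := ⟨_, rfl⟩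
  have hr1 : 0 < r1 := by rw [hr1def]; exact lt_min hr (by norm_num)
  have hr1r : r1 ≤ r := by rw [hr1def]; exact min_le_left _ _
  have hr116 : r1 ≤ 1 / 16 := by rw [hr1def]; exact min_le_right _ _
  have hr1h : r1 ≤ 1 / 2 := by linarith
  obtain ⟨c0, hc0, C0, hC0, m0, hcore⟩ := corV (⌈A⌉₊ + 2) (by omega) hr1 hr116
  obtain ⟨D, hD, hmert⟩ := uni_mert
  obtain ⟨C2, hC2, hpar⟩ := uni_par hD hc0 hC0 m0
  obtain ⟨x0, hev⟩ := uni_ev hr1 hC2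
  refine ⟨1 / (2 * C2), by positivity, C2 + 2, x0, ?_⟩
  intro x hx X hX lam hlam hlamu
  obtain ⟨h3x, hsz, hlx, hq, hcx, hH, hlamH⟩ := hev x hx
  obtain ⟨m, hm, hm1, hm2⟩ := hpar lam hlam
  have h1x : 1 ≤ x := by linarith
  have hx0 : 0 < x := by linarith
  have hlamH' : lam ≤ Real.log x / 80000 := hlamu.trans hlamH
  have hH0 : 0 < Real.log x := by linarith
  have hEH : Real.exp (C2 * lam) ≤ Real.log x ^ (1 / 2 : ℝ) := by
    rw [Real.rpow_def_of_pos hH0]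
    refine Real.exp_le_exp.2 ?_
    calc C2 * lam ≤ C2 * (1 / (2 * C2) * Real.log (Real.log x)) := mul_le_mul_of_nonneg_left hlamu (by linarith)
      _ = Real.log (Real.log x) * (1 / 2) := by field_simp
  have hEm : Real.exp (C0 * m) ≤ Real.exp (C2 * lam) := Real.exp_le_exp.2 hm2
  obtain ⟨K, hK⟩ : ∃ K : ℕ, K = ⌊lam * Real.log x⌋₊ := ⟨_, rfl⟩
  obtain ⟨z0, hz0⟩ : ∃ z0 : ℕ, z0 = ⌊Real.log x / 100⌋₊ := ⟨_, rfl⟩
  obtain ⟨Q0, hQ0⟩ : ∃ Q0 : ℕ, Q0 = primorial z0 := ⟨_, rfl⟩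
  obtain ⟨T, hT⟩ : ∃ T : ℕ, T = ⌊x / (Q0 : ℝ)⌋₊ := ⟨_, rfl⟩
  obtain ⟨k1, k2, k3, k4, k5, k6, k7, k8, k9, k10⟩ := uni_size hH hlam hlamH' hK hz0
  have hQ : 0 < Q0 := by rw [hQ0]; exact primorial_pos z0
  have hQle : (Q0 : ℝ) ≤ x ^ (1 / 50 : ℝ) := by rw [hQ0]; exact Amp_prim h1x k9
  obtain ⟨t1, t2, t3⟩ := uni_T h3x hH hQ hQle hT
  have hzr : (z0 : ℝ) ≤ x ^ r1 := k10.trans hlx
  have hφ : (Nat.totient Q0 : ℝ) / (Q0 : ℝ) ≤ D / Real.log z0 := by rw [hQ0]; exact hmert z0 k6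
  obtain ⟨B, hB⟩ : ∃ B : Finset ℕ, B = (range Q0).filter (fun b =>
      (((Icc 1 K).filter (fun k => Nat.Coprime (X + 1 + b + k) Q0)).card : ℝ) ≤
        2 * (K : ℝ) * ((Nat.totient Q0 : ℝ) / (Q0 : ℝ))) := ⟨_, rfl⟩
  have hBc : (Q0 : ℝ) / 2 ≤ (B.card : ℝ) := by rw [hB]; exact Fin_good Q0 X K hQ k1
  obtain ⟨G, hG⟩ : ∃ G : ℕ → Finset ℕ, G = fun b => (range T).filter (fun t =>
    ∀ k ∈ (Icc 1 K).filter (fun k => Nat.Coprime (X + 1 + b + k) Q0), ∃ p : ℕ, p.Prime ∧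
    (p : ℝ) ≤ x ^ r1 ∧ p ∣ Q0 * t + (X + 1 + b + k)) := ⟨_, rfl⟩
  obtain ⟨E, hE⟩ : ∃ E : ℝ, E = Real.exp (C2 * lam) := ⟨_, rfl⟩
  obtain ⟨c1, hc1⟩ : ∃ c1 : ℝ, c1 = Real.exp (-E) := ⟨_, rfl⟩
  have hc10 : 0 < c1 := by rw [hc1]; exact Real.exp_pos _
  have hBs : B ⊆ range Q0 := by rw [hB]; exact Finset.filter_subset _ _
  have hGc : ∀ b ∈ B, c1 * (T : ℝ) ≤ ((G b).card : ℝ) := by
    intro b hb
    have hbq := Finset.mem_range.1 (hBs hb)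
    rw [hB] at hb
    have hbs := (Finset.mem_filter.1 hb).2
    have h1 := uni_b (A := A) (r1 := r1) (by linarith) hcore h3x hsz hH hm hm1 (hEm.trans hEH) hlam hlamH' hK hz0 hQ0
      hT hX hφ hbq hbs
    have h2 : Real.exp (Real.exp (C0 * m)) ≤ Real.exp E := Real.exp_le_exp.2 (by rw [hE]; exact hEm)
    have h3 : (T : ℝ) ≤ Real.exp E * ((G b).card : ℝ) := by
      rw [hG]
      exact h1.trans (mul_le_mul_of_nonneg_right h2 (Nat.cast_nonneg _))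
    have h4 : c1 * Real.exp E = 1 := by rw [hc1, ← Real.exp_add]; simp
    calc c1 * (T : ℝ) ≤ c1 * (Real.exp E * ((G b).card : ℝ)) := mul_le_mul_of_nonneg_left h3 hc10.le
      _ = ((G b).card : ℝ) := by rw [← mul_assoc, h4, one_mul]
  have hW := Fin_map Q0 X T B G (c1 * T) hQ hBs (fun b _ => by rw [hG]; exact Finset.filter_subset _ _) hGc
  obtain ⟨W, hWdef⟩ : ∃ W : Finset ℕ, W = (B.sigma G).image (fun p => X + 1 + p.1 + Q0 * p.2) := ⟨_, rfl⟩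
  rw [← hWdef] at hW
  have hQT' : Q0 * T ≤ ⌊x⌋₊ := Nat.le_floor (by push_cast; exact t2)
  have hsub : W ⊆ ((Ioc X (X + ⌊x⌋₊)).filter (fun n : ℕ => ∀ k : ℕ, n < k →
      (k : ℝ) ≤ n + lam * Real.log x → ¬ k.Prime ∧ (k.minFac : ℝ) ≤ x ^ r)) ∪
        range (⌊x ^ (1 / 2 : ℝ)⌋₊ + 1) := by
    intro n hn
    rw [hWdef] at hn
    obtain ⟨⟨b, t⟩, hbt, e⟩ := Finset.mem_image.1 hn
    rw [Finset.mem_sigma] at hbt
    have ht : t ∈ G b := hbt.2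
    rw [hG] at ht
    by_cases hnx : n < ⌊x ^ (1 / 2 : ℝ)⌋₊ + 1
    · exact Finset.mem_union_right _ (Finset.mem_range.2 hnx)
    · exact Finset.mem_union_left _ (Finset.mem_filter.2 (uni_key h1x hr1r hr1h hQ0 hzr hK e
        (Finset.mem_range.1 (hBs hbt.1)) (Finset.mem_range.1 (Finset.mem_filter.1 ht).1) hQT'
        (Finset.mem_filter.1 ht).2 hnx))
  have hcard := (Finset.card_le_card hsub).trans (Finset.card_union_le _ _)
  rw [Finset.card_range] at hcard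
  have hcard' : (W.card : ℝ) ≤ (((Ioc X (X + ⌊x⌋₊)).filter (fun n : ℕ => ∀ k : ℕ, n < k →
      (k : ℝ) ≤ n + lam * Real.log x → ¬ k.Prime ∧ (k.minFac : ℝ) ≤ x ^ r)).card : ℝ) +
        ((⌊x ^ (1 / 2 : ℝ)⌋₊ : ℝ) + 1) := by exact_mod_cast hcard
  have hfl : (⌊x ^ (1 / 2 : ℝ)⌋₊ : ℝ) ≤ x ^ (1 / 2 : ℝ) := Nat.floor_le (by positivity)
  have hlow : c1 / 4 * x ≤ (B.card : ℝ) * (c1 * T) := by
    have h1 : x / 2 ≤ (Q0 : ℝ) * T := by linarith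
    calc c1 / 4 * x = c1 / 2 * (x / 2) := by ring
      _ ≤ c1 / 2 * ((Q0 : ℝ) * T) := mul_le_mul_of_nonneg_left h1 (by positivity)
      _ = (Q0 : ℝ) / 2 * (c1 * T) := by ring
      _ ≤ (B.card : ℝ) * (c1 * T) := mul_le_mul_of_nonneg_right hBc (by positivity)
  have hc1x : Real.exp (-(Real.log x ^ (1 / 2 : ℝ))) / 8 * x ≤ c1 / 8 * x := by
    have : Real.exp (-(Real.log x ^ (1 / 2 : ℝ))) ≤ c1 := by
      rw [hc1, hE]
      exact Real.exp_le_exp.2 (by linarith)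
    exact mul_le_mul_of_nonneg_right (by linarith) hx0.le
  have hfin := uni_fin hC2 hlam hE hc1 hx0
  linarith

end Pool.Agent.H7.LX
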